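import Mathlib

set_option autoImplicit false

/-!
# Permutation cubes and variational sets

Definitions for MP_c7a479_co.
-/

namespace Pool.Agent.H430R2.PermCubes

/-- `C : [n]^m → [n]` is an `m`-dimensional permutation cube of order `n`: on every line parallel
to a coordinate axis its `n` values form a permutation of `[n]`. -/
def IsPermutationCube (m n : ℕ) (C : (Fin m → Fin n) → Fin n) : Prop :=
  ∀ (i : Fin m) (x : Fin m → Fin n),
    Function.Bijective (fun t : Fin n => C (Function.update x i t))

/-- `C_1, …, C_k` is a variational set of `m`-dimensional permutation cubes of order `n`: any `m`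
of the cubes, with distinct indices, form a variational cube, i.e. `x ↦ (C_{e 1} x, …, C_{e m} x)`
is a bijection of `[n]^m`. -/
def IsVariationalSet (m n k : ℕ) (C : Fin k → (Fin m → Fin n) → Fin n) : Prop :=
  (∀ i, IsPermutationCube m n (C i)) ∧
  ∀ e : Fin m → Fin k, Function.Injective e →
    Function.Bijective (fun (x : Fin m → Fin n) (i : Fin m) => C (e i) x)

/-- `π_m(n) = p`: the largest `k` for which a variational set of `k` cubes exists is `p`. -/
def IsPi (m n p : ℕ) : Prop :=
  IsGreatest {k : ℕ | ∃ C : Fin k → (Fin m → Fin n) → Fin n, IsVariationalSet m n k C} p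

end Pool.Agent.H430R2.PermCubes
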