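import Mathlib

set_option autoImplicit false

/-!
# Two mutually orthogonal latin squares exist for every order except 2 and 6

The disproof of Euler's conjecture (Bose, Shrikhande and Parker 1960), with Wilson's construction
for the large orders.
-/

namespace Pool.Agent.H430R2.Mols

/-- An orthogonal array of strength two and index one with `k` columns over the alphabet `S`. -/
def HasOA (k : ℕ) (S : Type) : Prop :=
  ∃ (R : Type) (c : Fin k → R → S), ∀ i j, i ≠ j → ∀ p q : S, ∃! r, c i r = p ∧ c j r = q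

theorem HasOA.congr {k : ℕ} {S S' : Type} (e : S ≃ S') (h : HasOA k S) : HasOA k S' := by
  obtain ⟨R, c, hc⟩ := h
  refine ⟨R, fun i r => e (c i r), fun i j hij p q => ?_⟩
  obtain ⟨r, ⟨h1, h2⟩, h3⟩ := hc i j hij (e.symm p) (e.symm q)
  refine ⟨r, ⟨by simp [h1], by simp [h2]⟩, ?_⟩
  rintro r' ⟨h4, h5⟩
  apply h3
  exact ⟨by rw [← h4]; simp, by rw [← h5]; simp⟩

theorem HasOA.prod {k : ℕ} {S S' : Type} (h : HasOA k S) (h' : HasOA k S') :
    HasOA k (S × S') := by
  obtain ⟨R, c, hc⟩ := h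
  obtain ⟨R', c', hc'⟩ := h'
  refine ⟨R × R', fun i r => (c i r.1, c' i r.2), fun i j hij p q => ?_⟩
  obtain ⟨r, ⟨h1, h2⟩, h3⟩ := hc i j hij p.1 q.1
  obtain ⟨r', ⟨h1', h2'⟩, h3'⟩ := hc' i j hij p.2 q.2
  refine ⟨(r, r'), ⟨by simp [h1, h1'], by simp [h2, h2']⟩, ?_⟩
  rintro ⟨s, s'⟩ ⟨h4, h5⟩
  have h6 := congrArg Prod.fst h4
  have h7 := congrArg Prod.snd h4
  have h8 := congrArg Prod.fst h5
  have h9 := congrArg Prod.snd h5
  simp only at h6 h7 h8 h9
  rw [h3 s ⟨h6, h8⟩, h3' s' ⟨h7, h9⟩]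

/-- linear orthogonal arrays -/
theorem HasOA.linear {k : ℕ} {K : Type} [CommRing K] (a b : Fin k → K)
    (h : ∀ i j, i ≠ j → IsUnit (a i * b j - a j * b i)) : HasOA k K := by
  refine ⟨K × K, fun i r => a i * r.1 + b i * r.2, fun i j hij p q => ?_⟩
  obtain ⟨d, hd⟩ := h i j hij
  have hdi : (a i * b j - a j * b i) * (↑d⁻¹ : K) = 1 := by rw [← hd]; simp
  refine ⟨((b j * p - b i * q) * ↑d⁻¹, (a i * q - a j * p) * ↑d⁻¹), ⟨?_, ?_⟩, ?_⟩
  · simp only
    linear_combination p * hdi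
  · simp only
    linear_combination q * hdi
  · rintro ⟨x, y⟩ ⟨h1, h2⟩
    simp only at h1 h2
    ext
    · simp only
      linear_combination (-x) * hdi + (b j * ↑d⁻¹) * h1 - (b i * ↑d⁻¹) * h2
    · simp only
      linear_combination (-y) * hdi + (a i * ↑d⁻¹) * h2 - (a j * ↑d⁻¹) * h1

/-- the array of order `3` -/
def c3 (i : Fin 4) (r : Fin 3 × Fin 3) : Fin 3 :=
  match i with
  | 0 => r.1
  | 1 => r.2
  | 2 => r.1 + r.2
  | 3 => r.1 + 2 * r.2

theorem c3_spec : ∀ i j : Fin 4, i ≠ j → ∀ p q : Fin 3, ∃! r, c3 i r = p ∧ c3 j r = q := by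
  unfold ExistsUnique
  decide

/-- addition in the field of order four -/
def add4 (x y : Fin 4) : Fin 4 :=
  ![![0, 1, 2, 3], ![1, 0, 3, 2], ![2, 3, 0, 1], ![3, 2, 1, 0]] x y

/-- multiplication by a generator in the field of order four -/
def mul4 (x : Fin 4) : Fin 4 := ![0, 2, 3, 1] x

/-- names of the elements of the field of order four -/
def opt4 (x : Fin 4) : Option (Fin 3) := ![none, some 0, some 1, some 2] x

/-- the array of order `4` -/
def c4 (i : Fin 4) (r : Fin 4 × Fin 4) : Option (Fin 3) :=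
  match i with
  | 0 => opt4 r.1
  | 1 => opt4 r.2
  | 2 => opt4 (add4 r.1 r.2)
  | 3 => opt4 (add4 r.1 (mul4 r.2))

theorem c4_spec : ∀ i j : Fin 4, i ≠ j → ∀ p q : Option (Fin 3),
    ∃! r, c4 i r = p ∧ c4 j r = q := by
  unfold ExistsUnique
  decide +kernel

theorem c4_zero : ∀ i : Fin 4, c4 i (0, 0) = none := by decide

/-- **Wilson's construction** with weight three. -/
theorem wilson {T : Type} (P : T → Prop) (h5 : HasOA 5 T) (hU : HasOA 4 {t // P t}) :
    HasOA 4 ((T × Fin 3) ⊕ {t // P t}) := by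
  classical
  obtain ⟨R, c, hc⟩ := h5
  obtain ⟨R', c', hc'⟩ := hU
  -- the first four columns of the array with five columns
  let d : Fin 4 → R → T := fun i r => c i.castSucc r
  have hd : ∀ i j : Fin 4, i ≠ j → ∀ p q : T, ∃! r, d i r = p ∧ d j r = q := fun i j hij p q =>
    hc i.castSucc j.castSucc (fun h => hij (Fin.castSucc_injective _ h)) p q
  have hl : ∀ i : Fin 4, ∀ p q : T, ∃! r, d i r = p ∧ c (Fin.last 4) r = q := fun i p q =>
    hc i.castSucc (Fin.last 4) (Fin.castSucc_lt_last i).ne p q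
  let f : Fin 4 → ({r : R // ¬ P (c (Fin.last 4) r)} × (Fin 3 × Fin 3)) →
      (T × Fin 3) ⊕ {t // P t} := fun i r => Sum.inl (d i r.1.1, c3 i r.2)
  let g : Fin 4 → ({r : R // P (c (Fin.last 4) r)} × {s : Fin 4 × Fin 4 // s ≠ (0, 0)}) →
      (T × Fin 3) ⊕ {t // P t} := fun i r =>
        match c4 i r.2.1 with
        | none => Sum.inr ⟨c (Fin.last 4) r.1.1, r.1.2⟩
        | some a => Sum.inl (d i r.1.1, a)
  refine ⟨({r : R // ¬ P (c (Fin.last 4) r)} × (Fin 3 × Fin 3)) ⊕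
    ({r : R // P (c (Fin.last 4) r)} × {s : Fin 4 × Fin 4 // s ≠ (0, 0)}) ⊕ R',
    fun i => Sum.elim (f i) (Sum.elim (g i) (fun r => Sum.inr (c' i r))), ?_⟩
  have hg_none : ∀ i r, c4 i r.2.1 = none → g i r = Sum.inr ⟨c (Fin.last 4) r.1.1, r.1.2⟩ := by
    intro i r h; simp only [g]; rw [h]
  have hg_some : ∀ i r a, c4 i r.2.1 = some a → g i r = Sum.inl (d i r.1.1, a) := by
    intro i r a h; simp only [g]; rw [h]
  -- at most one entry of a nonzero row of `c4` is `none`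
  have hc4 : ∀ i j : Fin 4, i ≠ j → ∀ s : Fin 4 × Fin 4, s ≠ (0, 0) → c4 i s = none →
      c4 j s ≠ none := by
    intro i j hij s hs h1 h2
    exact hs ((c4_spec i j hij none none).unique ⟨h1, h2⟩ ⟨c4_zero i, c4_zero j⟩)
  intro i j hij p q
  rcases p with ⟨x, a⟩ | u <;> rcases q with ⟨y, b⟩ | v
  · -- both symbols finite
    obtain ⟨r, ⟨hr1, hr2⟩, hr3⟩ := hd i j hij x y
    by_cases hP : P (c (Fin.last 4) r)
    · obtain ⟨s, ⟨hs1, hs2⟩, hs3⟩ := c4_spec i j hij (some a) (some b)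
      have hs0 : s ≠ (0, 0) := by
        rintro rfl
        rw [c4_zero] at hs1
        exact absurd hs1 (by simp)
      refine ⟨Sum.inr (Sum.inl (⟨r, hP⟩, ⟨s, hs0⟩)), ⟨?_, ?_⟩, ?_⟩
      · simp only [Sum.elim_inr, Sum.elim_inl]
        rw [hg_some i _ a hs1, hr1]
      · simp only [Sum.elim_inr, Sum.elim_inl]
        rw [hg_some j _ b hs2, hr2]
      · rintro (⟨⟨r', hr'⟩, s'⟩ | ⟨⟨r', hr'⟩, ⟨s', hs'⟩⟩ | r') ⟨h1, h2⟩
        · simp only [Sum.elim_inl, f] at h1 h2
          have := hr3 r' ⟨by simpa using congrArg Prod.fst (Sum.inl.inj h1),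
            by simpa using congrArg Prod.fst (Sum.inl.inj h2)⟩
          subst this
          exact absurd hP hr'
        · simp only [Sum.elim_inr, Sum.elim_inl] at h1 h2
          rcases h3 : c4 i s' with _ | a'
          · rw [hg_none i _ h3] at h1; exact absurd h1 (by simp)
          rcases h4 : c4 j s' with _ | b'
          · rw [hg_none j _ h4] at h2; exact absurd h2 (by simp)
          rw [hg_some i _ a' h3] at h1
          rw [hg_some j _ b' h4] at h2
          have e1 := Sum.inl.inj h1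
          have e2 := Sum.inl.inj h2
          simp only [Prod.mk.injEq] at e1 e2
          have := hr3 r' ⟨e1.1, e2.1⟩
          subst this
          have := hs3 s' ⟨by rw [h3, e1.2], by rw [h4, e2.2]⟩
          subst this
          rfl
        · simp only [Sum.elim_inr] at h1
          exact absurd h1 (by simp)
    · obtain ⟨s, ⟨hs1, hs2⟩, hs3⟩ := c3_spec i j hij a b
      refine ⟨Sum.inl (⟨r, hP⟩, s), ⟨?_, ?_⟩, ?_⟩
      · simp only [Sum.elim_inl, f]
        rw [hr1, hs1]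
      · simp only [Sum.elim_inl, f]
        rw [hr2, hs2]
      · rintro (⟨⟨r', hr'⟩, s'⟩ | ⟨⟨r', hr'⟩, ⟨s', hs'⟩⟩ | r') ⟨h1, h2⟩
        · simp only [Sum.elim_inl, f] at h1 h2
          have e1 := Sum.inl.inj h1
          have e2 := Sum.inl.inj h2
          simp only [Prod.mk.injEq] at e1 e2
          have := hr3 r' ⟨e1.1, e2.1⟩
          subst this
          have := hs3 s' ⟨e1.2, e2.2⟩
          subst this
          rfl
        · simp only [Sum.elim_inr, Sum.elim_inl] at h1 h2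
          rcases h3 : c4 i s' with _ | a'
          · rw [hg_none i _ h3] at h1; exact absurd h1 (by simp)
          rcases h4 : c4 j s' with _ | b'
          · rw [hg_none j _ h4] at h2; exact absurd h2 (by simp)
          rw [hg_some i _ a' h3] at h1
          rw [hg_some j _ b' h4] at h2
          have e1 := Sum.inl.inj h1
          have e2 := Sum.inl.inj h2
          simp only [Prod.mk.injEq] at e1 e2
          have := hr3 r' ⟨e1.1, e2.1⟩
          subst this
          exact absurd hr' hP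
        · simp only [Sum.elim_inr] at h1
          exact absurd h1 (by simp)
  · -- `p` finite, `q` infinite
    obtain ⟨v, hv⟩ := v
    obtain ⟨r, ⟨hr1, hr2⟩, hr3⟩ := hl i x v
    have hP : P (c (Fin.last 4) r) := by rw [hr2]; exact hv
    obtain ⟨s, ⟨hs1, hs2⟩, hs3⟩ := c4_spec i j hij (some a) none
    have hs0 : s ≠ (0, 0) := by
      rintro rfl
      rw [c4_zero] at hs1
      exact absurd hs1 (by simp)
    refine ⟨Sum.inr (Sum.inl (⟨r, hP⟩, ⟨s, hs0⟩)), ⟨?_, ?_⟩, ?_⟩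
    · simp only [Sum.elim_inr, Sum.elim_inl]
      rw [hg_some i _ a hs1, hr1]
    · simp only [Sum.elim_inr, Sum.elim_inl]
      rw [hg_none j _ hs2]
      simp only [hr2]
    · rintro (⟨⟨r', hr'⟩, s'⟩ | ⟨⟨r', hr'⟩, ⟨s', hs'⟩⟩ | r') ⟨h1, h2⟩
      · simp only [Sum.elim_inl, f] at h2
        exact absurd h2 (by simp)
      · simp only [Sum.elim_inr, Sum.elim_inl] at h1 h2
        rcases h3 : c4 i s' with _ | a'
        · rw [hg_none i _ h3] at h1; exact absurd h1 (by simp)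
        rcases h4 : c4 j s' with _ | b'
        · rw [hg_some i _ a' h3] at h1
          rw [hg_none j _ h4] at h2
          have e1 := Sum.inl.inj h1
          have e2 := Sum.inr.inj h2
          simp only [Prod.mk.injEq, Subtype.mk.injEq] at e1 e2
          have := hr3 r' ⟨e1.1, e2⟩
          subst this
          have := hs3 s' ⟨by rw [h3, e1.2], h4⟩
          subst this
          rfl
        · rw [hg_some j _ b' h4] at h2; exact absurd h2 (by simp)
      · simp only [Sum.elim_inr] at h1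
        exact absurd h1 (by simp)
  · -- `p` infinite, `q` finite
    obtain ⟨u, hu⟩ := u
    obtain ⟨r, ⟨hr1, hr2⟩, hr3⟩ := hl j y u
    have hP : P (c (Fin.last 4) r) := by rw [hr2]; exact hu
    obtain ⟨s, ⟨hs1, hs2⟩, hs3⟩ := c4_spec i j hij none (some b)
    have hs0 : s ≠ (0, 0) := by
      rintro rfl
      rw [c4_zero] at hs2
      exact absurd hs2 (by simp)
    refine ⟨Sum.inr (Sum.inl (⟨r, hP⟩, ⟨s, hs0⟩)), ⟨?_, ?_⟩, ?_⟩
    · simp only [Sum.elim_inr, Sum.elim_inl]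
      rw [hg_none i _ hs1]
      simp only [hr2]
    · simp only [Sum.elim_inr, Sum.elim_inl]
      rw [hg_some j _ b hs2, hr1]
    · rintro (⟨⟨r', hr'⟩, s'⟩ | ⟨⟨r', hr'⟩, ⟨s', hs'⟩⟩ | r') ⟨h1, h2⟩
      · simp only [Sum.elim_inl, f] at h1
        exact absurd h1 (by simp)
      · simp only [Sum.elim_inr, Sum.elim_inl] at h1 h2
        rcases h3 : c4 i s' with _ | a'
        · rcases h4 : c4 j s' with _ | b'
          · rw [hg_none j _ h4] at h2; exact absurd h2 (by simp)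
          rw [hg_none i _ h3] at h1
          rw [hg_some j _ b' h4] at h2
          have e1 := Sum.inr.inj h1
          have e2 := Sum.inl.inj h2
          simp only [Prod.mk.injEq, Subtype.mk.injEq] at e1 e2
          have := hr3 r' ⟨e2.1, e1⟩
          subst this
          have := hs3 s' ⟨h3, by rw [h4, e2.2]⟩
          subst this
          rfl
        · rw [hg_some i _ a' h3] at h1; exact absurd h1 (by simp)
      · simp only [Sum.elim_inr] at h2
        exact absurd h2 (by simp)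
  · -- both infinite
    obtain ⟨r, ⟨hr1, hr2⟩, hr3⟩ := hc' i j hij u v
    refine ⟨Sum.inr (Sum.inr r), ⟨by simp [hr1], by simp [hr2]⟩, ?_⟩
    rintro (⟨⟨r', hr'⟩, s'⟩ | ⟨⟨r', hr'⟩, ⟨s', hs'⟩⟩ | r') ⟨h1, h2⟩
    · simp only [Sum.elim_inl, f] at h1
      exact absurd h1 (by simp)
    · simp only [Sum.elim_inr, Sum.elim_inl] at h1 h2
      rcases h3 : c4 i s' with _ | a'
      · rcases h4 : c4 j s' with _ | b'
        · exact absurd h4 (hc4 i j hij s' hs' h3)
        · rw [hg_some j _ b' h4] at h2; exact absurd h2 (by simp)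
      · rw [hg_some i _ a' h3] at h1; exact absurd h1 (by simp)
    · simp only [Sum.elim_inr] at h1 h2
      rw [hr3 r' ⟨Sum.inr.inj h1, Sum.inr.inj h2⟩]

/-- first square of order 10 -/
def sqA10 : List ℕ := [3, 6, 7, 9, 5, 2, 8, 4, 0, 1, 8, 4, 0, 7, 9, 6, 3, 5, 1, 2, 4, 8, 5, 1, 7, 9, 0, 6, 2, 3, 1, 5, 8, 6, 2, 7, 9, 0, 3, 4, 9, 2, 6, 8, 0, 3, 7, 1, 4, 5, 7, 9, 3, 0, 8, 1, 4, 2, 5, 6, 5, 7, 9, 4, 1, 8, 2, 3, 6, 0, 0, 1, 2, 3, 4, 5, 6, 7, 8, 9, 2, 3, 4, 5, 6, 0, 1, 8, 9, 7, 6, 0, 1, 2, 3, 4, 5, 9, 7, 8]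

/-- second square of order 10 -/
def sqB10 : List ℕ := [8, 7, 5, 2, 9, 3, 6, 0, 4, 1, 0, 8, 7, 6, 3, 9, 4, 1, 5, 2, 5, 1, 8, 7, 0, 4, 9, 2, 6, 3, 9, 6, 2, 8, 7, 1, 5, 3, 0, 4, 6, 9, 0, 3, 8, 7, 2, 4, 1, 5, 3, 0, 9, 1, 4, 8, 7, 5, 2, 6, 7, 4, 1, 9, 2, 5, 8, 6, 3, 0, 2, 3, 4, 5, 6, 0, 1, 7, 9, 8, 1, 2, 3, 4, 5, 6, 0, 8, 7, 9, 4, 5, 6, 0, 1, 2, 3, 9, 8, 7]

/-- first square of order 14 -/
def sqA14 : List ℕ := [0, 9, 6, 1, 11, 12, 2, 8, 3, 13, 4, 5, 7, 10, 5, 1, 10, 7, 2, 11, 12, 3, 9, 4, 13, 6, 8, 0, 13, 6, 2, 0, 8, 3, 11, 12, 4, 10, 5, 7, 9, 1, 6, 13, 7, 3, 1, 9, 4, 11, 12, 5, 0, 8, 10, 2, 1, 7, 13, 8, 4, 2, 10, 5, 11, 12, 6, 9, 0, 3, 7, 2, 8, 13, 9, 5, 3, 0, 6, 11, 12, 10, 1, 4, 12, 8, 3, 9, 13, 10, 6, 4, 1, 7, 11, 0, 2, 5, 11, 12, 9, 4, 10, 13, 0, 7, 5, 2, 8, 1, 3, 6, 9, 11, 12, 10, 5, 0, 13, 1, 8, 6, 3, 2, 4, 7, 4, 10, 11, 12, 0, 6, 1, 13, 2, 9, 7, 3, 5, 8, 8, 5, 0, 11, 12, 1, 7, 2, 13, 3, 10, 4, 6, 9, 2, 3, 4, 5, 6, 7, 8, 9,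 10, 0, 1, 11, 12, 13, 10, 0, 1, 2, 3, 4, 5, 6, 7, 8, 9, 12, 13, 11, 3, 4, 5, 6, 7, 8, 9, 10, 0, 1, 2, 13, 11, 12]

/-- second square of order 14 -/
def sqB14 : List ℕ := [0, 4, 11, 13, 9, 1, 3, 5, 10, 8, 12, 7, 6, 2, 12, 1, 5, 11, 13, 10, 2, 4, 6, 0, 9, 8, 7, 3, 10, 12, 2, 6, 11, 13, 0, 3, 5, 7, 1, 9, 8, 4, 2, 0, 12, 3, 7, 11, 13, 1, 4, 6, 8, 10, 9, 5, 9, 3, 1, 12, 4, 8, 11, 13, 2, 5, 7, 0, 10, 6, 8, 10, 4, 2, 12, 5, 9, 11, 13, 3, 6, 1, 0, 7, 7, 9, 0, 5, 3, 12, 6, 10, 11, 13, 4, 2, 1, 8, 5, 8, 10, 1, 6, 4, 12, 7, 0, 11, 13, 3, 2, 9, 13, 6, 9, 0, 2, 7, 5, 12, 8, 1, 11, 4, 3, 10, 11, 13, 7, 10, 1, 3, 8, 6, 12, 9, 2, 5, 4, 0, 3, 11, 13, 8, 0, 2, 4, 9, 7, 12, 10, 6, 5, 1, 6, 7, 8, 9, 10, 0, 1, 2, 3, 4, 5, 11, 13, 12, 4, 5, 6, 7, 8, 9, 10, 0, 1, 2, 3, 12, 11, 13, 1, 2, 3, 4, 5, 6, 7, 8, 9, 10, 0, 13, 12, 11]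

/-- the four columns given by two squares -/
def colN (n : ℕ) (a b : List ℕ) (i : Fin 4) (r : ℕ × ℕ) : ℕ :=
  match i with
  | 0 => r.1
  | 1 => r.2
  | 2 => a.getD (n * r.1 + r.2) 0
  | 3 => b.getD (n * r.1 + r.2) 0

/-- a checker: the entries are `< n` and any two columns give all pairs -/
def check (n : ℕ) (a b : List ℕ) : Bool :=
  (List.range n).all fun x => (List.range n).all fun y =>
    (a.getD (n * x + y) 0 < n) && (b.getD (n * x + y) 0 < n)

/-- a checker: two columns give all pairs -/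
def check2 (n : ℕ) (a b : List ℕ) (i j : Fin 4) : Bool :=
  (List.range n).all fun p => (List.range n).all fun q =>
    (List.range n).any fun x => (List.range n).any fun y =>
      (colN n a b i (x, y) == p) && (colN n a b j (x, y) == q)

theorem hasOA_of_check {n : ℕ} {a b : List ℕ} (h1 : check n a b = true)
    (h2 : ∀ i j : Fin 4, i ≠ j → check2 n a b i j = true) : HasOA 4 (Fin n) := by
  simp only [check, List.all_eq_true, List.mem_range, Bool.and_eq_true, decide_eq_true_eq] at h1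
  have hlt : ∀ (i : Fin 4) (r : Fin n × Fin n), colN n a b i (r.1.1, r.2.1) < n := by
    intro i r
    fin_cases i
    · exact r.1.2
    · exact r.2.2
    · exact (h1 r.1.1 r.1.2 r.2.1 r.2.2).1
    · exact (h1 r.1.1 r.1.2 r.2.1 r.2.2).2
  refine ⟨Fin n × Fin n, fun i r => ⟨colN n a b i (r.1.1, r.2.1), hlt i r⟩, fun i j hij => ?_⟩
  have hsurj : Function.Surjective (fun r : Fin n × Fin n =>
      ((⟨colN n a b i (r.1.1, r.2.1), hlt i r⟩ : Fin n),
        (⟨colN n a b j (r.1.1, r.2.1), hlt j r⟩ : Fin n))) := by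
    rintro ⟨⟨p, hp⟩, ⟨q, hq⟩⟩
    have := h2 i j hij
    simp only [check2, List.all_eq_true, List.mem_range, List.any_eq_true, Bool.and_eq_true,
      beq_iff_eq] at this
    obtain ⟨x, hx, y, hy, hxy1, hxy2⟩ := this p hp q hq
    exact ⟨(⟨x, hx⟩, ⟨y, hy⟩), by simp only [Prod.mk.injEq, Fin.mk.injEq]; exact ⟨hxy1, hxy2⟩⟩
  have hbij : Function.Bijective (fun r : Fin n × Fin n =>
      ((⟨colN n a b i (r.1.1, r.2.1), hlt i r⟩ : Fin n),
        (⟨colN n a b j (r.1.1, r.2.1), hlt j r⟩ : Fin n))) :=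
    Finite.injective_iff_surjective.2 hsurj |> fun h => ⟨h, hsurj⟩
  intro p q
  obtain ⟨r, hr, hr'⟩ := hbij.existsUnique (p, q)
  simp only [Prod.mk.injEq] at hr hr'
  exact ⟨r, hr, hr'⟩

theorem hasOA_ten : HasOA 4 (Fin 10) :=
  hasOA_of_check (a := sqA10) (b := sqB10) (by decide +kernel) (by decide +kernel)

theorem hasOA_fourteen : HasOA 4 (Fin 14) :=
  hasOA_of_check (a := sqA14) (b := sqB14) (by decide +kernel) (by decide +kernel)

/-- `ZMod n` and `Fin n` -/
theorem HasOA.zmod {k n : ℕ} [NeZero n] (h : HasOA k (ZMod n)) : HasOA k (Fin n) := by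
  have : Fintype.card (ZMod n) = n := ZMod.card n
  exact h.congr (Fintype.equivFinOfCardEq this)

theorem isUnit_two {n : ℕ} (hn : n % 2 = 1) : IsUnit (2 : ZMod n) := by
  have : IsUnit ((2 : ℕ) : ZMod n) := by
    rw [ZMod.isUnit_iff_coprime]
    exact (Nat.coprime_two_left).2 (Nat.odd_iff.2 hn)
  simpa using this

theorem isUnit_three {n : ℕ} (hn : n % 3 ≠ 0) : IsUnit (3 : ZMod n) := by
  have : IsUnit ((3 : ℕ) : ZMod n) := by
    rw [ZMod.isUnit_iff_coprime, Nat.Prime.coprime_iff_not_dvd Nat.prime_three]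
    omega
  simpa using this

theorem hasOA_odd {n : ℕ} (hn : n % 2 = 1) : HasOA 4 (Fin n) := by
  have : NeZero n := ⟨by omega⟩
  refine HasOA.zmod (HasOA.linear ![1, 0, 1, 1] ![0, 1, 1, 2] ?_)
  have h2 := isUnit_two hn
  intro i j hij
  fin_cases i <;> fin_cases j <;> simp_all [IsUnit.neg_iff] <;>
    first
      | exact h2
      | exact isUnit_one
      | (ring_nf; first | exact isUnit_one | exact isUnit_one.neg)

theorem hasOA_five {n : ℕ} (hn : n % 2 = 1) (hn3 : n % 3 ≠ 0) : HasOA 5 (Fin n) := by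
  have : NeZero n := ⟨by omega⟩
  refine HasOA.zmod (HasOA.linear ![1, 0, 1, 1, 1] ![0, 1, 1, 2, 3] ?_)
  have h2 := isUnit_two hn
  have h3 := isUnit_three hn3
  intro i j hij
  fin_cases i <;> fin_cases j <;> simp_all [IsUnit.neg_iff] <;>
    first
      | exact h2
      | exact h3
      | exact isUnit_one
      | (ring_nf; first | exact isUnit_one | exact isUnit_one.neg | exact h2 | exact h2.neg)

theorem hasOA_field {K : Type} [Field K] (c : K) (h0 : c ≠ 0) (h1 : c ≠ 1) : HasOA 4 K := by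
  refine HasOA.linear ![1, 0, 1, 1] ![0, 1, 1, c] ?_
  have h2 : IsUnit c := isUnit_iff_ne_zero.2 h0
  have h3 : IsUnit (c - 1) := isUnit_iff_ne_zero.2 (sub_ne_zero.2 h1)
  have h4 : IsUnit (1 - c) := isUnit_iff_ne_zero.2 (sub_ne_zero.2 (Ne.symm h1))
  intro i j hij
  fin_cases i <;> fin_cases j <;> simp_all

theorem hasOA_twoPow {a : ℕ} (ha : 2 ≤ a) : HasOA 4 (Fin (2 ^ a)) := by
  have h0 : a ≠ 0 := by omega
  have hc : Nat.card (GaloisField 2 a) = 2 ^ a := GaloisField.card 2 a h0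
  have : Finite (GaloisField 2 a) := Nat.finite_of_card_ne_zero (by rw [hc]; positivity)
  have : Fintype (GaloisField 2 a) := Fintype.ofFinite _
  rw [Nat.card_eq_fintype_card] at hc
  have h4 : 2 < Fintype.card (GaloisField 2 a) := by
    rw [hc]
    calc 2 < 2 ^ 2 := by norm_num
      _ ≤ 2 ^ a := Nat.pow_le_pow_right (by norm_num) ha
  classical
  obtain ⟨c, hc0, hc1⟩ : ∃ c : GaloisField 2 a, c ≠ 0 ∧ c ≠ 1 := by
    by_contra hcon
    push Not at hcon
    have : (Finset.univ : Finset (GaloisField 2 a)) ⊆ {0, 1} := by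
      intro x _
      by_cases hx : x = 0
      · simp [hx]
      · simp [hcon x hx]
    have := Finset.card_le_card this
    have h5 : ({0, 1} : Finset (GaloisField 2 a)).card ≤ 2 := Finset.card_le_two
    rw [Finset.card_univ] at this
    omega
  exact (hasOA_field c hc0 hc1).congr (Fintype.equivFinOfCardEq hc)

theorem hasOA_mul {k a b : ℕ} (ha : HasOA k (Fin a)) (hb : HasOA k (Fin b)) :
    HasOA k (Fin (a * b)) :=
  (ha.prod hb).congr finProdFinEquiv

theorem hasOA_wilson {t u : ℕ} (ht : t % 2 = 1) (ht3 : t % 3 ≠ 0) (hu : u % 2 = 1) (hut : u ≤ t) :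
    HasOA 4 (Fin (3 * t + u)) := by
  have h5 := hasOA_five ht ht3
  have hcard : Fintype.card {x : Fin t // (x : ℕ) < u} = u := by
    rw [Fintype.card_subtype]
    have : (Finset.univ.filter (fun x : Fin t => (x : ℕ) < u)).card = u := by
      rw [← Finset.card_map Fin.valEmbedding]
      have : (Finset.map Fin.valEmbedding (Finset.univ.filter (fun x : Fin t => (x : ℕ) < u))) =
          Finset.range u := by
        ext y
        simp only [Finset.mem_map, Finset.mem_filter, Finset.mem_univ, true_and,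
          Fin.valEmbedding_apply, Finset.mem_range]
        constructor
        · rintro ⟨x, hx, rfl⟩; exact hx
        · intro hy; exact ⟨⟨y, by omega⟩, hy, rfl⟩
      rw [this, Finset.card_range]
    exact this
  have hU : HasOA 4 {x : Fin t // (x : ℕ) < u} :=
    (hasOA_odd hu).congr (Fintype.equivFinOfCardEq hcard).symm
  have h := wilson (fun x : Fin t => (x : ℕ) < u) h5 hU
  refine h.congr (Fintype.equivFinOfCardEq ?_)
  rw [Fintype.card_sum, Fintype.card_prod, Fintype.card_fin, Fintype.card_fin, hcard]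
  ring

/-- **Two mutually orthogonal latin squares of order `n` exist for all `n ≥ 1`, `n ≠ 2, 6`.** -/
theorem euler {n : ℕ} (h0 : n ≠ 0) (h2 : n ≠ 2) (h6 : n ≠ 6) : HasOA 4 (Fin n) := by
  rcases Nat.lt_or_ge (n % 2) 1 with hpar | hpar
  swap
  · exact hasOA_odd (by omega)
  by_cases h4 : n % 4 = 0
  · -- multiple of four
    obtain ⟨a, b, hb, hn⟩ := Nat.exists_eq_two_pow_mul_odd h0
    have ha : 2 ≤ a := by
      by_contra hlt
      have hb' := Nat.odd_iff.1 hb
      interval_cases a <;> omega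
    rw [hn]
    exact hasOA_mul (hasOA_twoPow ha) (hasOA_odd (Nat.odd_iff.1 hb))
  · have hmod : n % 4 = 2 := by omega
    by_cases h10 : n = 10
    · subst h10; exact hasOA_ten
    by_cases h14 : n = 14
    · subst h14; exact hasOA_fourteen
    by_cases h30 : n = 30
    · subst h30
      exact hasOA_mul (a := 3) (b := 10) (hasOA_odd (by norm_num)) hasOA_ten
    obtain ⟨t, u, ht, ht3, hu, hut, hn⟩ : ∃ t u : ℕ, t % 2 = 1 ∧ t % 3 ≠ 0 ∧ u % 2 = 1 ∧ u ≤ t ∧
        3 * t + u = n := by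
      by_cases hbig : 48 ≤ n
      · set s := (n - 1) / 3 with hs
        rcases (by omega : s % 6 = 0 ∨ s % 6 = 1 ∨ s % 6 = 2 ∨ s % 6 = 3 ∨ s % 6 = 4 ∨ s % 6 = 5)
          with h | h | h | h | h | h
        · exact ⟨s - 1, n - 3 * (s - 1), by omega, by omega, by omega, by omega, by omega⟩
        · exact ⟨s, n - 3 * s, by omega, by omega, by omega, by omega, by omega⟩
        · exact ⟨s - 1, n - 3 * (s - 1), by omega, by omega, by omega, by omega, by omega⟩
        · exact ⟨s - 2, n - 3 * (s - 2), by omega, by omega, by omega, by omega, by omega⟩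
        · exact ⟨s - 3, n - 3 * (s - 3), by omega, by omega, by omega, by omega, by omega⟩
        · exact ⟨s, n - 3 * s, by omega, by omega, by omega, by omega, by omega⟩
      · have : n = 18 ∨ n = 22 ∨ n = 26 ∨ n = 34 ∨ n = 38 ∨ n = 42 ∨ n = 46 := by omega
        rcases this with rfl | rfl | rfl | rfl | rfl | rfl | rfl
        · exact ⟨5, 3, by norm_num, by norm_num, by norm_num, by norm_num, by norm_num⟩
        · exact ⟨7, 1, by norm_num, by norm_num, by norm_num, by norm_num, by norm_num⟩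
        · exact ⟨7, 5, by norm_num, by norm_num, by norm_num, by norm_num, by norm_num⟩
        · exact ⟨11, 1, by norm_num, by norm_num, by norm_num, by norm_num, by norm_num⟩
        · exact ⟨11, 5, by norm_num, by norm_num, by norm_num, by norm_num, by norm_num⟩
        · exact ⟨13, 3, by norm_num, by norm_num, by norm_num, by norm_num, by norm_num⟩
        · exact ⟨13, 7, by norm_num, by norm_num, by norm_num, by norm_num, by norm_num⟩
    rw [← hn]
    exact hasOA_wilson ht ht3 hu hut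

/-- the same in terms of two binary operations -/
theorem euler_ops {n : ℕ} (h0 : n ≠ 0) (h2 : n ≠ 2) (h6 : n ≠ 6) :
    ∃ A B : Fin n → Fin n → Fin n, (∀ a, Function.Bijective (A a)) ∧
      (∀ b, Function.Bijective (fun a => A a b)) ∧ (∀ a, Function.Bijective (B a)) ∧
      (∀ b, Function.Bijective (fun a => B a b)) ∧
      Function.Injective (fun p : Fin n × Fin n => (A p.1 p.2, B p.1 p.2)) := by
  obtain ⟨R, c, hc⟩ := euler h0 h2 h6
  choose ρ hρ hρ' using fun p q => hc 0 1 (by decide) p q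
  have key : ∀ r, ρ (c 0 r) (c 1 r) = r := fun r => (hρ' _ _ r ⟨rfl, rfl⟩).symm
  have row : ∀ i : Fin 4, i ≠ 0 → ∀ a, Function.Bijective (fun b => c i (ρ a b)) := by
    intro i hi a
    refine Function.bijective_iff_existsUnique _ |>.2 fun q => ?_
    obtain ⟨r, ⟨h1, h2⟩, h3⟩ := hc 0 i (Ne.symm hi) a q
    refine ⟨c 1 r, ?_, ?_⟩
    · simp only; rw [← h1, key, h2]
    · intro b hb
      have := h3 (ρ a b) ⟨(hρ a b).1, hb⟩
      rw [← this]; exact (hρ a b).2.symm
  have col : ∀ i : Fin 4, i ≠ 1 → ∀ b, Function.Bijective (fun a => c i (ρ a b)) := by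
    intro i hi b
    refine Function.bijective_iff_existsUnique _ |>.2 fun q => ?_
    obtain ⟨r, ⟨h1, h2⟩, h3⟩ := hc 1 i (Ne.symm hi) b q
    refine ⟨c 0 r, ?_, ?_⟩
    · simp only; rw [← h1, key, h2]
    · intro a ha
      have := h3 (ρ a b) ⟨(hρ a b).2, ha⟩
      rw [← this]; exact (hρ a b).1.symm
  refine ⟨fun a b => c 2 (ρ a b), fun a b => c 3 (ρ a b), row 2 (by decide), col 2 (by decide),
    row 3 (by decide), col 3 (by decide), ?_⟩
  rintro ⟨a, b⟩ ⟨a', b'⟩ h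
  simp only [Prod.mk.injEq] at h
  have h1 : ρ a b = ρ a' b' := (hc 2 3 (by decide) _ _).unique ⟨h.1, h.2⟩ ⟨rfl, rfl⟩
  have h2 := hρ a b
  have h3 := hρ a' b'
  rw [h1] at h2
  rw [Prod.mk.injEq]
  exact ⟨h2.1.symm.trans h3.1, h2.2.symm.trans h3.2⟩

end Pool.Agent.H430R2.Mols
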