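import Pool.Agent.H430R2.PermCubes.Defs
import Pool.Agent.H430R2.PermCubes.Mols

set_option autoImplicit false

/-!
# Variational sets of `m + 1` cubes from a pair of orthogonal latin squares
-/

namespace Pool.Agent.H430R2.PermCubes

open Function

/-- jointly injective functions `F_i` (`i : ι`) on `ι → S`, each a permutation in each variable -/
def Joint (ι S : Type) [DecidableEq ι] : Prop :=
  ∃ F : (ι → S) → (ι → S), Injective F ∧
    ∀ (i j : ι) (x : ι → S), Bijective (fun t => F (update x j t) i)

theorem Joint.congr {ι ι' S : Type} [DecidableEq ι] [DecidableEq ι'] (e : ι ≃ ι')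
    (h : Joint ι S) : Joint ι' S := by
  obtain ⟨F, h1, h2⟩ := h
  refine ⟨fun x i => F (fun a => x (e a)) (e.symm i), ?_, ?_⟩
  · intro x y hxy
    have : F (fun a => x (e a)) = F (fun a => y (e a)) := by
      funext i
      have := congrFun hxy (e i)
      simpa using this
    have := h1 this
    funext i
    have := congrFun this (e.symm i)
    simpa using this
  · intro i j x
    have : ∀ t, (fun a => update x j t (e a)) = update (fun a => x (e a)) (e.symm j) t := by
      intro t
      funext a
      by_cases ha : e a = j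
      · subst ha; simp
      · have : a ≠ e.symm j := fun h => ha (by rw [h]; simp)
        rw [update_of_ne ha, update_of_ne this]
    simp only [this]
    exact h2 (e.symm i) (e.symm j) _

theorem Joint.split {ι S : Type} [DecidableEq ι] (p : ι → Prop) [DecidablePred p]
    (h1 : Joint {i // p i} S) (h2 : Joint {i // ¬ p i} S) :
    ∃ V : (ι → S) → (ι → S), Injective V ∧
      (∀ i j x, (p i ↔ p j) → Bijective (fun t => V (update x j t) i)) ∧
      (∀ i j x t, ¬ (p i ↔ p j) → V (update x j t) i = V x i) := by
  obtain ⟨F, F1, F2⟩ := h1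
  obtain ⟨G, G1, G2⟩ := h2
  have up : ∀ (x : ι → S) (j : ι) (t : S) (hj : p j),
      (fun a : {i // p i} => update x j t a.1) = update (fun a : {i // p i} => x a.1) ⟨j, hj⟩ t := by
    intro x j t hj
    funext a
    by_cases ha : a.1 = j
    · have : a = ⟨j, hj⟩ := Subtype.ext ha
      subst this; simp
    · have : a ≠ ⟨j, hj⟩ := fun h => ha (by rw [h])
      rw [update_of_ne ha, update_of_ne this]
  have un : ∀ (x : ι → S) (j : ι) (t : S) (hj : ¬ p j),
      (fun a : {i // p i} => update x j t a.1) = (fun a : {i // p i} => x a.1) := by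
    intro x j t hj
    funext a
    have : a.1 ≠ j := fun h => hj (h ▸ a.2)
    rw [update_of_ne this]
  have up' : ∀ (x : ι → S) (j : ι) (t : S) (hj : ¬ p j),
      (fun a : {i // ¬ p i} => update x j t a.1) =
        update (fun a : {i // ¬ p i} => x a.1) ⟨j, hj⟩ t := by
    intro x j t hj
    funext a
    by_cases ha : a.1 = j
    · have : a = ⟨j, hj⟩ := Subtype.ext ha
      subst this; simp
    · have : a ≠ ⟨j, hj⟩ := fun h => ha (by rw [h])
      rw [update_of_ne ha, update_of_ne this]
  have un' : ∀ (x : ι → S) (j : ι) (t : S) (hj : p j),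
      (fun a : {i // ¬ p i} => update x j t a.1) = (fun a : {i // ¬ p i} => x a.1) := by
    intro x j t hj
    funext a
    have : a.1 ≠ j := fun h => a.2 (h ▸ hj)
    rw [update_of_ne this]
  refine ⟨fun x i => if h : p i then F (fun a => x a.1) ⟨i, h⟩ else G (fun a => x a.1) ⟨i, h⟩,
    ?_, ?_, ?_⟩
  · intro x y hxy
    have e1 : F (fun a => x a.1) = F (fun a => y a.1) := by
      funext a
      have := congrFun hxy a.1
      simpa only [dif_pos a.2] using this
    have e2 : G (fun a => x a.1) = G (fun a => y a.1) := by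
      funext a
      have := congrFun hxy a.1
      simpa only [dif_neg a.2] using this
    funext i
    by_cases hi : p i
    · exact congrFun (F1 e1) ⟨i, hi⟩
    · exact congrFun (G1 e2) ⟨i, hi⟩
  · intro i j x hij
    by_cases hi : p i
    · have hj := hij.1 hi
      simp only [dif_pos hi, up x j _ hj]
      exact F2 _ _ _
    · have hj : ¬ p j := fun h => hi (hij.2 h)
      simp only [dif_neg hi, up' x j _ hj]
      exact G2 _ _ _
  · intro i j x t hij
    by_cases hi : p i
    · have hj : ¬ p j := fun h => hij ⟨fun _ => h, fun _ => hi⟩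
      simp only [dif_pos hi, un x j t hj]
    · have hj : p j := by
        by_contra h
        exact hij ⟨fun h' => absurd h' hi, fun h' => absurd h' h⟩
      simp only [dif_neg hi, un' x j t hj]

/-- a pair of orthogonal latin squares on `S` -/
def IsPair {S : Type} (A B : S → S → S) : Prop :=
  (∀ a, Bijective (A a)) ∧ (∀ b, Bijective (fun a => A a b)) ∧ (∀ a, Bijective (B a)) ∧
    (∀ b, Bijective (fun a => B a b)) ∧ Injective (fun p : S × S => (A p.1 p.2, B p.1 p.2))

/-- the `m + 1` cubes on the path with `m` nodes -/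
def pathCube {S : Type} (A B : S → S → S) (m : ℕ) (v : ℕ → S) (j : ℕ) : S :=
  if j = 0 then B (v 0) (v 1) else if j = m then B (v (m - 2)) (v (m - 1)) else
    A (v (j - 1)) (v j)

/-- extension of a finite sequence -/
def ext {S : Type} {m : ℕ} (s : S) (w : Fin m → S) (i : ℕ) : S :=
  if h : i < m then w ⟨i, h⟩ else s

theorem path_determines {S : Type} {A B : S → S → S} (hAB : IsPair A B) {m : ℕ} (hm : 3 ≤ m)
    (v w : ℕ → S) (j : ℕ) (h : ∀ k, k ≤ m → k ≠ j → pathCube A B m v k = pathCube A B m w k) :
    j ≤ m → ∀ i, i < m → v i = w i := by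
  intro hjm
  obtain ⟨hA1, hA2, hB1, hB2, hO⟩ := hAB
  have hmid : ∀ k, 1 ≤ k → k < m → k ≠ j → A (v (k - 1)) (v k) = A (w (k - 1)) (w k) := by
    intro k h1 h2 h3
    have := h k h2.le h3
    simpa only [pathCube, if_neg (show k ≠ 0 by omega), if_neg (show k ≠ m by omega)] using this
  have hzero : 0 ≠ j → B (v 0) (v 1) = B (w 0) (w 1) := by
    intro h3
    have := h 0 (by omega) h3
    simpa only [pathCube, if_pos] using this
  have hlast : m ≠ j → B (v (m - 2)) (v (m - 1)) = B (w (m - 2)) (w (m - 1)) := by
    intro h3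
    have := h m le_rfl h3
    simpa only [pathCube, if_neg (show m ≠ 0 by omega), if_pos] using this
  have hUp : 2 ≤ j → ∀ i, i < j → i < m → v i = w i := by
    intro hj
    have h01 : v 0 = w 0 ∧ v 1 = w 1 := by
      have h1 := hmid 1 le_rfl (by omega) (by omega)
      have h0 := hzero (by omega)
      have := @hO (v 0, v 1) (w 0, w 1) (by simp only [Prod.mk.injEq]; exact ⟨h1, h0⟩)
      simpa using this
    intro i
    induction i with
    | zero => intro _ _; exact h01.1
    | succ i ih =>
      intro h1 h2
      rcases Nat.eq_zero_or_pos i with rfl | hi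
      · exact h01.2
      · have h3 := ih (by omega) (by omega)
        have h4 := hmid (i + 1) (by omega) h2 (by omega)
        rw [Nat.add_sub_cancel, h3] at h4
        exact (hA1 _).1 h4
  have hDown : j + 2 ≤ m → ∀ d i, i + d = m - 1 → j ≤ i → v i = w i := by
    intro hj
    have h01 : v (m - 2) = w (m - 2) ∧ v (m - 1) = w (m - 1) := by
      have h1 := hmid (m - 1) (by omega) (by omega) (by omega)
      have h0 := hlast (by omega)
      rw [show m - 1 - 1 = m - 2 by omega] at h1
      have := @hO (v (m - 2), v (m - 1)) (w (m - 2), w (m - 1))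
        (by simp only [Prod.mk.injEq]; exact ⟨h1, h0⟩)
      simpa using this
    intro d
    induction d with
    | zero =>
      intro i h1 h2
      rw [show i = m - 1 by omega]; exact h01.2
    | succ d ih =>
      intro i h1 h2
      have h3 := ih (i + 1) (by omega) (by omega)
      have h4 := hmid (i + 1) (by omega) (by omega) (by omega)
      rw [Nat.add_sub_cancel, h3] at h4
      exact (hA2 _).1 h4
  intro i hi
  by_cases hij : i < j
  · by_cases h2 : 2 ≤ j
    · exact hUp h2 i hij hi
    · have hj1 : j = 1 := by omega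
      have hi0 : i = 0 := by omega
      subst hj1 hi0
      have h1 : v 1 = w 1 := hDown (by omega) (m - 2) 1 (by omega) le_rfl
      have h0 := hzero (by omega)
      rw [h1] at h0
      exact (hB2 _).1 h0
  · by_cases h2 : j + 2 ≤ m
    · exact hDown h2 (m - 1 - i) i (by omega) (by omega)
    · have hj1 : j = m - 1 := by omega
      have hi0 : i = m - 1 := by omega
      rw [hi0]
      have h1 : v (m - 2) = w (m - 2) := hUp (by omega) (m - 2) (by omega) (by omega)
      have h0 := hlast (by omega)
      rw [h1] at h0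
      exact (hB1 _).1 h0

/-- the `m + 1` cubes, over any alphabet with a pair of orthogonal latin squares -/
theorem exists_path {S : Type} {A B : S → S → S} (hAB : IsPair A B) (s : S) {m : ℕ} (hm : 3 ≤ m)
    (h1 : Joint {i : Fin m // (i : ℕ) % 2 = 0} S) (h2 : Joint {i : Fin m // ¬ (i : ℕ) % 2 = 0} S) :
    ∃ C : ℕ → (Fin m → S) → S,
      (∀ j, j ≤ m → ∀ (l : Fin m) (x : Fin m → S), Bijective (fun t => C j (update x l t))) ∧
      (∀ j, j ≤ m → ∀ x y : Fin m → S, (∀ k, k ≤ m → k ≠ j → C k x = C k y) → x = y) := by
  obtain ⟨V, hV, hV1, hV2⟩ := Joint.split (fun i : Fin m => (i : ℕ) % 2 = 0) h1 h2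
  refine ⟨fun j x => pathCube A B m (ext s (V x)) j, ?_, ?_⟩
  · have key : ∀ O : S → S → S, (∀ a, Bijective (O a)) → (∀ b, Bijective (fun a => O a b)) →
        ∀ a, a + 1 < m → ∀ (l : Fin m) (x : Fin m → S),
        Bijective (fun t => O (ext s (V (update x l t)) a) (ext s (V (update x l t)) (a + 1))) := by
      intro O hO1 hO2 a ha l x
      have e1 : ∀ y, ext s (V y) a = V y ⟨a, by omega⟩ := by
        intro y; simp only [ext]; rw [dif_pos]
      have e2 : ∀ y, ext s (V y) (a + 1) = V y ⟨a + 1, ha⟩ := by
        intro y; simp only [ext]; rw [dif_pos]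
      simp only [e1, e2]
      by_cases hpar : (a % 2 = 0 ↔ (l : ℕ) % 2 = 0)
      · have hb := hV1 ⟨a, by omega⟩ l x hpar
        have hc : ∀ t, V (update x l t) ⟨a + 1, ha⟩ = V x ⟨a + 1, ha⟩ := fun t =>
          hV2 ⟨a + 1, ha⟩ l x t (by simp only; omega)
        simp only [hc]
        exact (hO2 _).comp hb
      · have hb := hV1 ⟨a + 1, ha⟩ l x (by simp only; omega)
        have hc : ∀ t, V (update x l t) ⟨a, by omega⟩ = V x ⟨a, by omega⟩ := fun t =>
          hV2 ⟨a, by omega⟩ l x t hpar
        simp only [hc]
        exact (hO1 _).comp hb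
    intro j hj l x
    simp only [pathCube]
    by_cases hj0 : j = 0
    · simp only [if_pos hj0]
      exact key B hAB.2.2.1 hAB.2.2.2.1 0 (by omega) l x
    · simp only [if_neg hj0]
      by_cases hjm : j = m
      · simp only [if_pos hjm]
        have := key B hAB.2.2.1 hAB.2.2.2.1 (m - 2) (by omega) l x
        rwa [show m - 2 + 1 = m - 1 by omega] at this
      · simp only [if_neg hjm]
        have := key A hAB.1 hAB.2.1 (j - 1) (by omega) l x
        rwa [show j - 1 + 1 = j by omega] at this
  · intro j hj x y hxy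
    have := path_determines hAB hm (ext s (V x)) (ext s (V y)) j hxy hj
    apply hV
    funext i
    have := this i i.2
    simpa only [ext, dif_pos i.2] using this

theorem joint_of_card {ι S : Type} [DecidableEq ι] [Fintype ι] {a : ℕ}
    (hc : Fintype.card ι = a) (h : Joint (Fin a) S) : Joint ι S :=
  h.congr (Fintype.equivFinOfCardEq hc).symm

theorem joint_zero (S : Type) : Joint (Fin 0) S :=
  ⟨id, injective_id, fun i => i.elim0⟩

theorem joint_one (S : Type) : Joint (Fin 1) S := by
  refine ⟨id, injective_id, fun i j x => ?_⟩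
  have : i = j := Subsingleton.elim _ _
  subst this
  simp only [id, update_self]
  exact bijective_id

theorem joint_two {S : Type} {A B : S → S → S} (hAB : IsPair A B) : Joint (Fin 2) S := by
  obtain ⟨hA1, hA2, hB1, hB2, hO⟩ := hAB
  refine ⟨fun x => ![A (x 0) (x 1), B (x 0) (x 1)], ?_, ?_⟩
  · intro x y hxy
    have h0 := congrFun hxy 0
    have h1 := congrFun hxy 1
    simp at h0 h1
    have := @hO (x 0, x 1) (y 0, y 1) (by simp only [Prod.mk.injEq]; exact ⟨h0, h1⟩)
    simp only [Prod.mk.injEq] at this
    funext i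
    fin_cases i
    · exact this.1
    · exact this.2
  · intro i j x
    fin_cases i <;> fin_cases j
    · simpa using hA2 (x 1)
    · simpa using hA1 (x 0)
    · simpa using hB2 (x 1)
    · simpa using hB1 (x 0)

theorem card_even (m : ℕ) : Fintype.card {i : Fin m // (i : ℕ) % 2 = 0} = (m + 1) / 2 := by
  rw [Fintype.card_subtype]
  rw [← Finset.card_map Fin.valEmbedding]
  have : (Finset.map Fin.valEmbedding (Finset.univ.filter (fun x : Fin m => (x : ℕ) % 2 = 0))) =
      (Finset.range ((m + 1) / 2)).map ⟨fun i => 2 * i, fun a b h => by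
        simp only at h; omega⟩ := by
    ext y
    simp only [Finset.mem_map, Finset.mem_filter, Finset.mem_univ, true_and,
      Fin.valEmbedding_apply, Finset.mem_range]
    constructor
    · rintro ⟨x, hx, rfl⟩
      refine ⟨x / 2, by omega, ?_⟩
      change 2 * ((x : ℕ) / 2) = x
      omega
    · rintro ⟨x, hx, rfl⟩
      exact ⟨⟨2 * x, by omega⟩, by simp, rfl⟩
  rw [this, Finset.card_map, Finset.card_range]

theorem card_odd (m : ℕ) : Fintype.card {i : Fin m // ¬ (i : ℕ) % 2 = 0} = m / 2 := by
  rw [Fintype.card_subtype_compl, card_even, Fintype.card_fin]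
  omega

/-- `m` jointly injective cubes exist for every `m` as soon as there is a pair of orthogonal
latin squares -/
theorem joint_all {S : Type} {A B : S → S → S} (hAB : IsPair A B) (s : S) :
    ∀ m, Joint (Fin m) S := by
  intro m
  induction m using Nat.strong_induction_on with
  | _ m ih =>
    by_cases h0 : m = 0
    · subst h0; exact joint_zero S
    by_cases h1 : m = 1
    · subst h1; exact joint_one S
    by_cases h2 : m = 2
    · subst h2; exact joint_two hAB
    obtain ⟨C, hC1, hC2⟩ := exists_path hAB s (m := m) (by omega)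
      (joint_of_card (card_even m) (ih _ (by omega)))
      (joint_of_card (card_odd m) (ih _ (by omega)))
    refine ⟨fun x i => C i x, ?_, fun i j x => hC1 i i.2.le j x⟩
    intro x y hxy
    apply hC2 m le_rfl
    intro k hk hkm
    exact congrFun hxy ⟨k, by omega⟩

/-- **`m + 1` cubes** for `m ≥ 3`, `n ≠ 2, 6`. -/
theorem exists_succ {m n : ℕ} (hm : 3 ≤ m) (h0 : n ≠ 0) (h2 : n ≠ 2) (h6 : n ≠ 6) :
    ∃ C : Fin (m + 1) → (Fin m → Fin n) → Fin n, IsVariationalSet m n (m + 1) C := by
  obtain ⟨A, B, hAB⟩ := Mols.euler_ops h0 h2 h6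
  have hAB : IsPair A B := hAB
  have s : Fin n := ⟨0, by omega⟩
  obtain ⟨C, hC1, hC2⟩ := exists_path hAB s hm
    (joint_of_card (card_even m) (joint_all hAB s _))
    (joint_of_card (card_odd m) (joint_all hAB s _))
  refine ⟨fun j x => C j x, fun j l x => hC1 j (by omega) l x, ?_⟩
  intro e he
  rw [← Finite.injective_iff_bijective]
  intro x y hxy
  -- the omitted index
  obtain ⟨j, hj⟩ : ∃ j : Fin (m + 1), ∀ i, e i ≠ j := by
    by_contra hcon
    push Not at hcon
    have hs : Surjective e := fun j => hcon j
    have := Fintype.card_le_of_surjective e hs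
    simp at this
  have hall : ∀ k : Fin (m + 1), k ≠ j → ∃ i, e i = k := by
    intro k hk
    by_contra hcon
    push Not at hcon
    have hsub : Finset.univ.image e ⊆ (Finset.univ.erase j).erase k := by
      intro a ha
      obtain ⟨i, -, rfl⟩ := Finset.mem_image.1 ha
      exact Finset.mem_erase.2 ⟨hcon i, Finset.mem_erase.2 ⟨hj i, Finset.mem_univ _⟩⟩
    have := Finset.card_le_card hsub
    rw [Finset.card_image_of_injective _ he, Finset.card_univ, Fintype.card_fin,
      Finset.card_erase_of_mem (Finset.mem_erase.2 ⟨hk, Finset.mem_univ _⟩),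
      Finset.card_erase_of_mem (Finset.mem_univ _), Finset.card_univ, Fintype.card_fin] at this
    omega
  refine hC2 j (by omega) x y ?_
  intro k hk hkj
  obtain ⟨i, hi⟩ := hall ⟨k, by omega⟩ (by
    intro h; apply hkj; rw [← h])
  have := congrFun hxy i
  simpa [hi] using this

end Pool.Agent.H430R2.PermCubes
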