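import Pool.Agent.H430R2.PermCubes.Rootless
import Pool.Agent.H430R2.PermCubes.Lower

set_option autoImplicit false

/-!
# A lower bound for all orders
-/

namespace Pool.Agent.H430R2.PermCubes

open Function

theorem varOver_primePow {q m : ℕ} (hq : IsPrimePow q) (hm : 3 ≤ m) (h3 : 3 ≤ q)
    (hmq : m ≤ q) : VarOver m (Fin q) (Fin (q + 1)) := by
  by_cases hm3 : m = 3
  · subst hm3
    by_cases hodd : q % 2 = 1
    · exact VarOver.ofFin (three_odd hq hodd)
    · have h := VarOver.ofFin (three_even hq (by omega) (by omega))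
      exact h.mono (Fin.castLE (by omega)) (Fin.castLE_injective _)
  · obtain ⟨F, hF, hFt, hc⟩ := exists_field hq
    have h : VarOver m F (Option F) := varOver_rs (by omega) (by omega)
    exact VarOver.ofFin (h.toFin (Fintype.equivFinOfCardEq hc)
      (Fintype.equivFinOfCardEq (by rw [Fintype.card_option, hc])))

theorem varOver_all {m u : ℕ} (hm : 3 ≤ m) (hmu : m ≤ u) :
    ∀ n : ℕ, n ≠ 0 → (∀ p : ℕ, p.Prime → p ∣ n → u ≤ p ^ n.factorization p) →
      VarOver m (Fin n) (Fin (u + 1)) := by
  intro n
  induction n using Nat.recOnPosPrimePosCoprime with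
  | prime_pow p k hp hk =>
    intro _ h
    have hu := h p hp (dvd_pow_self p hk.ne')
    rw [hp.factorization_pow, Finsupp.single_eq_same] at hu
    have := varOver_primePow (m := m) ⟨p, k, hp.prime, hk, rfl⟩ hm (by omega) (by omega)
    exact this.mono (Fin.castLE (by omega)) (Fin.castLE_injective _)
  | zero => intro h; exact absurd rfl h
  | one =>
    intro _ _
    refine ⟨fun _ _ => 0, ?_, ?_⟩
    · intro c i x
      exact ⟨fun a b _ => Subsingleton.elim _ _, fun b => ⟨0, Subsingleton.elim _ _⟩⟩
    · intro e he
      exact ⟨fun a b _ => Subsingleton.elim _ _, fun b => ⟨fun _ => 0, Subsingleton.elim _ _⟩⟩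
  | coprime a b ha hb hab iha ihb =>
    intro _ h
    have ha0 : a ≠ 0 := by omega
    have hb0 : b ≠ 0 := by omega
    have h1 := iha ha0 (by
      intro p hp hpa
      have := h p hp (hpa.mul_right b)
      rw [Nat.factorization_mul ha0 hb0, Finsupp.add_apply] at this
      have hpb : b.factorization p = 0 := by
        apply Nat.factorization_eq_zero_of_not_dvd
        intro hpb
        exact hp.one_lt.ne' (Nat.dvd_one.1 (hab ▸ Nat.dvd_gcd hpa hpb))
      rwa [hpb, add_zero] at this)
    have h2 := ihb hb0 (by
      intro p hp hpb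
      have := h p hp (hpb.mul_left a)
      rw [Nat.factorization_mul ha0 hb0, Finsupp.add_apply] at this
      have hpa : a.factorization p = 0 := by
        apply Nat.factorization_eq_zero_of_not_dvd
        intro hpa
        exact hp.one_lt.ne' (Nat.dvd_one.1 (hab ▸ Nat.dvd_gcd hpa hpb))
      rwa [hpa, zero_add] at this)
    exact VarOver.ofFin ((h1.prod h2).toFin finProdFinEquiv (Equiv.refl _))

end Pool.Agent.H430R2.PermCubes
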