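import Pool.Agent.H430R2.PermCubes.Defs

set_option autoImplicit false

/-!
# Variational sets from linear codes
-/

namespace Pool.Agent.H430R2.PermCubes

open Function

/-- variational sets over an arbitrary alphabet and index type -/
def VarOver (m : ℕ) (S κ : Type) : Prop :=
  ∃ C : κ → (Fin m → S) → S,
    (∀ c (i : Fin m) (x : Fin m → S), Bijective (fun t => C c (update x i t))) ∧
    ∀ e : Fin m → κ, Injective e → Bijective (fun (x : Fin m → S) (i : Fin m) => C (e i) x)

theorem VarOver.toFin {m n k : ℕ} {S κ : Type} (hS : S ≃ Fin n) (hκ : κ ≃ Fin k)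
    (h : VarOver m S κ) : ∃ C : Fin k → (Fin m → Fin n) → Fin n, IsVariationalSet m n k C := by
  obtain ⟨C, h1, h2⟩ := h
  refine ⟨fun c x => hS (C (hκ.symm c) (fun i => hS.symm (x i))), ?_, ?_⟩
  · intro c i x
    have : ∀ t, (fun j => hS.symm (update x i t j)) = update (fun j => hS.symm (x j)) i
        (hS.symm t) := by
      intro t
      funext j
      by_cases hj : j = i
      · subst hj; simp
      · rw [update_of_ne hj, update_of_ne hj]
    simp only [this]
    exact hS.bijective.comp ((h1 _ i _).comp hS.symm.bijective)
  · intro e he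
    have hb := h2 (fun i => hκ.symm (e i)) (fun i j hij => he (hκ.symm.injective hij))
    have e1 : Bijective (fun (x : Fin m → Fin n) (i : Fin m) => hS.symm (x i)) :=
      (Equiv.arrowCongr (Equiv.refl (Fin m)) hS.symm).bijective
    have e2 : Bijective (fun (x : Fin m → S) (i : Fin m) => hS (x i)) :=
      (Equiv.arrowCongr (Equiv.refl (Fin m)) hS).bijective
    exact e2.comp (hb.comp e1)

theorem VarOver.ofFin {m n k : ℕ}
    (h : ∃ C : Fin k → (Fin m → Fin n) → Fin n, IsVariationalSet m n k C) :
    VarOver m (Fin n) (Fin k) := h

theorem VarOver.prod {m : ℕ} {S S' κ : Type} (h : VarOver m S κ) (h' : VarOver m S' κ) :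
    VarOver m (S × S') κ := by
  obtain ⟨C, h1, h2⟩ := h
  obtain ⟨C', h1', h2'⟩ := h'
  refine ⟨fun c x => (C c (fun i => (x i).1), C' c (fun i => (x i).2)), ?_, ?_⟩
  · intro c i x
    have a1 : ∀ t : S × S', (fun j => (update x i t j).1) = update (fun j => (x j).1) i t.1 := by
      intro t
      funext j
      by_cases hj : j = i
      · subst hj; simp
      · rw [update_of_ne hj, update_of_ne hj]
    have a2 : ∀ t : S × S', (fun j => (update x i t j).2) = update (fun j => (x j).2) i t.2 := by
      intro t
      funext j
      by_cases hj : j = i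
      · subst hj; simp
      · rw [update_of_ne hj, update_of_ne hj]
    simp only [a1, a2]
    exact (h1 c i (fun j => (x j).1)).prodMap (h1' c i (fun j => (x j).2))
  · intro e he
    have b1 := h2 e he
    have b2 := h2' e he
    constructor
    · intro x y hxy
      have c1 : (fun i => (x i).1) = (fun i => (y i).1) := by
        apply b1.1
        funext i
        exact congrArg Prod.fst (congrFun hxy i)
      have c2 : (fun i => (x i).2) = (fun i => (y i).2) := by
        apply b2.1
        funext i
        exact congrArg Prod.snd (congrFun hxy i)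
      funext i
      exact Prod.ext (congrFun c1 i) (congrFun c2 i)
    · intro y
      obtain ⟨x1, hx1⟩ := b1.2 (fun i => (y i).1)
      obtain ⟨x2, hx2⟩ := b2.2 (fun i => (y i).2)
      refine ⟨fun i => (x1 i, x2 i), ?_⟩
      funext i
      exact Prod.ext (congrFun hx1 i) (congrFun hx2 i)

/-- fewer cubes -/
theorem VarOver.mono {m : ℕ} {S κ κ' : Type} (f : κ' → κ) (hf : Injective f)
    (h : VarOver m S κ) : VarOver m S κ' := by
  obtain ⟨C, h1, h2⟩ := h
  exact ⟨fun c => C (f c), fun c => h1 _, fun e he => h2 (fun i => f (e i)) (hf.comp he)⟩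

/-- **Linear variational sets.** -/
theorem VarOver.linear {m : ℕ} {F P κ : Type} [Field F] [Finite F] [AddCommGroup P] [Module F P]
    (ev : κ → P →ₗ[F] F) (h : Fin m → P) (hli : LinearIndependent F h)
    (hne : ∀ c j, ev c (h j) ≠ 0)
    (hdet : ∀ e : Fin m → κ, Injective e → ∀ v ∈ Submodule.span F (Set.range h),
      (∀ i, ev (e i) v = 0) → v = 0) : VarOver m F κ := by
  refine ⟨fun c x => ev c (∑ j, x j • h j), ?_, ?_⟩
  · intro c i x
    have : ∀ t, ev c (∑ j, update x i t j • h j) =
        t * ev c (h i) + ev c (∑ j ∈ Finset.univ.erase i, x j • h j) := by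
      intro t
      rw [← Finset.add_sum_erase _ _ (Finset.mem_univ i), map_add, update_self, map_smul,
        smul_eq_mul]
      congr 2
      apply Finset.sum_congr rfl
      intro j hj
      rw [update_of_ne (Finset.ne_of_mem_erase hj)]
    simp only [this]
    exact (Equiv.addRight _).bijective.comp (mulRight_bijective₀ _ (hne c i))
  · intro e he
    rw [← Finite.injective_iff_bijective]
    intro x y hxy
    have hz : ∑ j, (x j - y j) • h j = 0 := by
      apply hdet e he
      · exact Submodule.sum_mem _ fun j _ => Submodule.smul_mem _ _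
          (Submodule.subset_span ⟨j, rfl⟩)
      · intro i
        have := congrFun hxy i
        simp only at this
        have h3 : ∑ j, (x j - y j) • h j = ∑ j, x j • h j - ∑ j, y j • h j := by
          rw [← Finset.sum_sub_distrib]
          apply Finset.sum_congr rfl
          intro j _
          rw [sub_smul]
        rw [h3, map_sub, this, sub_self]
    have := Fintype.linearIndependent_iff.1 hli (fun j => x j - y j) hz
    funext j
    exact sub_eq_zero.1 (this j)

end Pool.Agent.H430R2.PermCubes
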