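import Pool.Agent.H430R2.PermCubes.Three

set_option autoImplicit false

/-!
# `q + 1` cubes of dimension `m ≤ q` over the field with `q` elements
-/

namespace Pool.Agent.H430R2.PermCubes

open Function Polynomial

variable {F : Type} [Field F]

/-- the polynomials of degree exactly `d` without roots -/
def rootless (F : Type) [Field F] (d : ℕ) : Set F[X] :=
  {p | p.natDegree = d ∧ p.coeff d ≠ 0 ∧ ∀ t, p.eval t ≠ 0}

theorem two_missing [Fintype F] {g : F[X]} {r r' : F} (hr : r ≠ 0) (hr' : r' ≠ 0) (hrr : r ≠ r')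
    (h1 : g.eval r = 0) (h2 : g.eval r' = 0) :
    ∃ c c' : F, c ≠ c' ∧ (∀ t, t * g.eval t ≠ c) ∧ (∀ t, t * g.eval t ≠ c') := by
  classical
  set φ : F → F := fun t => t * g.eval t with hφ
  have him : Finset.univ.image φ = ((Finset.univ.erase r).erase r').image φ := by
    apply Finset.Subset.antisymm
    · intro y hy
      obtain ⟨t, -, rfl⟩ := Finset.mem_image.1 hy
      by_cases ht : t = r ∨ t = r'
      · have h0 : φ t = φ 0 := by
          rcases ht with rfl | rfl
          · simp only [hφ, h1]; ring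
          · simp only [hφ, h2]; ring
        rw [h0]
        exact Finset.mem_image_of_mem _ (by simp [hr.symm, hr'.symm])
      · push Not at ht
        exact Finset.mem_image_of_mem _ (by simp [ht.1, ht.2])
    · exact Finset.image_subset_image (Finset.subset_univ _)
  have hcard : (Finset.univ.image φ).card + 2 ≤ Fintype.card F := by
    rw [him]
    have h3 := Finset.card_image_le (s := (Finset.univ.erase r).erase r') (f := φ)
    rw [Finset.card_erase_of_mem (by simp [hrr.symm]), Finset.card_erase_of_mem (Finset.mem_univ _),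
      Finset.card_univ] at h3
    have h4 : 2 ≤ Fintype.card F := by
      have := Finset.card_le_univ ({r, r'} : Finset F)
      rwa [Finset.card_pair hrr] at this
    omega
  have hcompl : 1 < (Finset.univ.image φ)ᶜ.card := by
    rw [Finset.card_compl]; omega
  obtain ⟨c, hc, c', hc', hcc⟩ := Finset.one_lt_card.1 hcompl
  refine ⟨c, c', hcc, fun t h => ?_, fun t h => ?_⟩
  · rw [Finset.mem_compl] at hc
    exact hc (Finset.mem_image.2 ⟨t, Finset.mem_univ _, h⟩)
  · rw [Finset.mem_compl] at hc'
    exact hc' (Finset.mem_image.2 ⟨t, Finset.mem_univ _, h⟩)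

theorem mem_rootless {g : F[X]} (hg : g.Monic) {d : ℕ} (hd : g.natDegree + 1 = d) {c : F}
    (hc : ∀ t, t * g.eval t ≠ c) : X * g - C c ∈ rootless F d := by
  have h1 : (X * g).natDegree = d := by
    rw [natDegree_X_mul hg.ne_zero]; exact hd
  have h2 : (X * g - C c).natDegree = d := by
    rw [natDegree_sub_C, h1]
  refine ⟨h2, ?_, fun t ht => ?_⟩
  · rw [← hd, coeff_sub, coeff_X_mul, coeff_C, if_neg (by omega), sub_zero]
    have : g.coeff g.natDegree = 1 := hg
    rw [this]; exact one_ne_zero
  · apply hc t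
    rw [eval_sub, eval_mul, eval_X, eval_C] at ht
    linear_combination ht

theorem span_rootless [Fintype F] (hq : 4 ≤ Fintype.card F) {d : ℕ} (hd : 3 ≤ d) :
    ∀ k, k ≤ d → (X ^ k : F[X]) ∈ Submodule.span F (rootless F d) := by
  classical
  set W := Submodule.span F (rootless F d) with hW
  have hsub : rootless F d ⊆ W := Submodule.subset_span
  -- three distinct non-zero elements
  obtain ⟨r1, r2, r3, h1, h2, h3, h12, h13, h23⟩ : ∃ r1 r2 r3 : F, r1 ≠ 0 ∧ r2 ≠ 0 ∧ r3 ≠ 0 ∧
      r1 ≠ r2 ∧ r1 ≠ r3 ∧ r2 ≠ r3 := by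
    have : 2 < (Finset.univ.erase (0 : F)).card := by
      rw [Finset.card_erase_of_mem (Finset.mem_univ _), Finset.card_univ]; omega
    obtain ⟨a, b, c, ha, hb, hc, hab, hac, hbc⟩ := Finset.two_lt_card_iff.1 this
    exact ⟨a, b, c, Finset.ne_of_mem_erase ha, Finset.ne_of_mem_erase hb,
      Finset.ne_of_mem_erase hc, hab, hac, hbc⟩
  -- step one
  have step1 : ∀ (r r' : F) (h : F[X]), r ≠ 0 → r' ≠ 0 → r ≠ r' → h.Monic →
      h.natDegree + 3 = d → (C 1 : F[X]) ∈ W ∧ X * ((X - C r) * ((X - C r') * h)) ∈ W := by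
    intro r r' h hr hr' hrr hh hhd
    have hm2 : ((X - C r') * h).Monic := (monic_X_sub_C r').mul hh
    have hm : ((X - C r) * ((X - C r') * h)).Monic := (monic_X_sub_C r).mul hm2
    have hdeg : ((X - C r) * ((X - C r') * h)).natDegree + 1 = d := by
      rw [(monic_X_sub_C r).natDegree_mul hm2, (monic_X_sub_C r').natDegree_mul hh,
        natDegree_X_sub_C, natDegree_X_sub_C]
      omega
    obtain ⟨c, c', hcc, hc, hc'⟩ := two_missing (g := (X - C r) * ((X - C r') * h)) hr hr' hrr
      (by simp) (by simp)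
    have m1 := hsub (mem_rootless hm hdeg hc)
    have m2 := hsub (mem_rootless hm hdeg hc')
    have m3 : (C 1 : F[X]) ∈ W := by
      have e : (C 1 : F[X]) = (c' - c)⁻¹ • ((X * ((X - C r) * ((X - C r') * h)) - C c) -
          (X * ((X - C r) * ((X - C r') * h)) - C c')) := by
        rw [show (X * ((X - C r) * ((X - C r') * h)) - C c) -
          (X * ((X - C r) * ((X - C r') * h)) - C c') = C (c' - c) by rw [C_sub]; ring,
          smul_C, smul_eq_mul, inv_mul_cancel₀ (sub_ne_zero.2 hcc.symm)]
      rw [e]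
      exact W.smul_mem _ (W.sub_mem m1 m2)
    refine ⟨m3, ?_⟩
    have e : X * ((X - C r) * ((X - C r') * h)) =
        (X * ((X - C r) * ((X - C r') * h)) - C c) + c • (C 1 : F[X]) := by
      rw [smul_C, smul_eq_mul, mul_one]; ring
    rw [e]
    exact W.add_mem m1 (W.smul_mem _ m3)
  have inv : ∀ (a : F) (p : F[X]), a ≠ 0 → C a * p ∈ W → p ∈ W := by
    intro a p ha hp
    have : p = a⁻¹ • (C a * p) := by
      rw [smul_eq_C_mul, ← mul_assoc, ← C_mul, inv_mul_cancel₀ ha, C_1, one_mul]
    rw [this]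
    exact W.smul_mem _ hp
  -- step two
  have step2 : ∀ (a b c : F) (h : F[X]), a ≠ 0 → b ≠ 0 → c ≠ 0 → a ≠ b → a ≠ c → b ≠ c →
      h.Monic → h.natDegree + 3 = d → X * ((X - C a) * h) ∈ W := by
    intro a b c h ha hb hc hab hac hbc hh hhd
    apply inv (c - b) _ (sub_ne_zero.2 hbc.symm)
    have e : C (c - b) * (X * ((X - C a) * h)) =
        X * ((X - C a) * ((X - C b) * h)) - X * ((X - C a) * ((X - C c) * h)) := by
      rw [C_sub]; ring
    rw [e]
    exact W.sub_mem (step1 a b h ha hb hab hh hhd).2 (step1 a c h ha hc hac hh hhd).2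
  have step3 : ∀ h : F[X], h.Monic → h.natDegree + 3 = d → X * h ∈ W := by
    intro h hh hhd
    apply inv (r2 - r1) _ (sub_ne_zero.2 h12.symm)
    have e : C (r2 - r1) * (X * h) = X * ((X - C r1) * h) - X * ((X - C r2) * h) := by
      rw [C_sub]; ring
    rw [e]
    exact W.sub_mem (step2 r1 r2 r3 h h1 h2 h3 h12 h13 h23 hh hhd)
      (step2 r2 r1 r3 h h2 h1 h3 h12.symm h23 h13 hh hhd)
  have step4 : ∀ h : F[X], h.Monic → h.natDegree + 3 = d → X * (X * h) ∈ W := by
    intro h hh hhd
    have e : X * (X * h) = X * ((X - C r1) * h) + r1 • (X * h) := by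
      rw [smul_eq_C_mul]; ring
    rw [e]
    exact W.add_mem (step2 r1 r2 r3 h h1 h2 h3 h12 h13 h23 hh hhd)
      (W.smul_mem _ (step3 h hh hhd))
  have step5 : ∀ h : F[X], h.Monic → h.natDegree + 3 = d → X * (X * (X * h)) ∈ W := by
    intro h hh hhd
    have e : X * (X * (X * h)) = X * ((X - C r1) * ((X - C r2) * h)) + (r1 + r2) • (X * (X * h)) -
        (r1 * r2) • (X * h) := by
      rw [smul_eq_C_mul, smul_eq_C_mul, C_add, C_mul]; ring
    rw [e]
    exact W.sub_mem (W.add_mem (step1 r1 r2 h h1 h2 h12 hh hhd).2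
      (W.smul_mem _ (step4 h hh hhd))) (W.smul_mem _ (step3 h hh hhd))
  have hX : (X ^ (d - 3) : F[X]).Monic := monic_X_pow _
  have hXd : (X ^ (d - 3) : F[X]).natDegree + 3 = d := by rw [natDegree_X_pow]; omega
  have hone : (C 1 : F[X]) ∈ W := (step1 r1 r2 _ h1 h2 h12 hX hXd).1
  intro k hk
  by_cases hk0 : k = 0
  · subst hk0; simpa using hone
  by_cases hk3 : k + 3 ≤ d
  · -- lower monomials
    have hm : (X ^ (d - 3) + X ^ (k - 1) : F[X]).Monic := by
      apply monic_X_pow_add
      rw [degree_X_pow]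
      exact_mod_cast (by omega : k - 1 < d - 3)
    have hmd : (X ^ (d - 3) + X ^ (k - 1) : F[X]).natDegree + 3 = d := by
      have : (X ^ (d - 3) + X ^ (k - 1) : F[X]).natDegree = d - 3 := by
        rw [natDegree_add_eq_left_of_natDegree_lt]
        · exact natDegree_X_pow _
        · rw [natDegree_X_pow, natDegree_X_pow]; omega
      omega
    have e : (X ^ k : F[X]) = X * (X ^ (d - 3) + X ^ (k - 1)) - X * X ^ (d - 3) := by
      obtain ⟨j, rfl⟩ : ∃ j, k = j + 1 := ⟨k - 1, by omega⟩
      rw [Nat.add_sub_cancel]; ring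
    rw [e]
    exact W.sub_mem (step3 _ hm hmd) (step3 _ hX hXd)
  · rcases (by omega : k = d - 2 ∨ k = d - 1 ∨ k = d) with rfl | rfl | rfl
    · have e : (X ^ (d - 2) : F[X]) = X * X ^ (d - 3) := by
        rw [← pow_succ']; congr 1; omega
      rw [e]; exact step3 _ hX hXd
    · have e : (X ^ (d - 1) : F[X]) = X * (X * X ^ (d - 3)) := by
        rw [← pow_succ', ← pow_succ']; congr 1; omega
      rw [e]; exact step4 _ hX hXd
    · have e : (X ^ k : F[X]) = X * (X * (X * X ^ (k - 3))) := by
        rw [← pow_succ', ← pow_succ', ← pow_succ']; congr 1; omega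
      rw [e]; exact step5 _ hX hXd

/-- evaluation of polynomials, `none` is the coefficient of degree `d` -/
noncomputable def evp (d : ℕ) (c : Option F) : F[X] →ₗ[F] F :=
  match c with
  | some t => leval t
  | none => lcoeff F d

theorem evp_det {m : ℕ} (hm : 1 ≤ m) (e : Fin m → Option F) (he : Injective e) (p : F[X])
    (hp : p ∈ degreeLT F m) (h : ∀ i, evp (m - 1) (e i) p = 0) : p = 0 := by
  classical
  rw [mem_degreeLT] at hp
  have hnd : p ≠ 0 → p.natDegree < m := fun h0 => (natDegree_lt_iff_degree_lt h0).2 hp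
  by_contra hne
  have hlt := hnd hne
  -- the roots
  set T : Finset F := (Finset.univ.image e).eraseNone with hT
  have hroots : ∀ t ∈ T, p.eval t = 0 := by
    intro t ht
    rw [hT, Finset.mem_eraseNone] at ht
    obtain ⟨i, -, hi⟩ := Finset.mem_image.1 ht
    have := h i
    rw [hi] at this
    exact this
  have hcard : (Finset.univ.image e).card = m := by
    rw [Finset.card_image_of_injective _ he, Finset.card_univ, Fintype.card_fin]
  by_cases hnone : none ∈ Finset.univ.image e
  · have hTc : T.card = m - 1 := by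
      rw [hT, Finset.card_eraseNone_of_mem hnone, hcard]
    obtain ⟨i, -, hi⟩ := Finset.mem_image.1 hnone
    have hc := h i
    rw [hi] at hc
    change p.coeff (m - 1) = 0 at hc
    have hlt' : p.natDegree < m - 1 := by
      rcases Nat.lt_or_ge p.natDegree (m - 1) with h' | h'
      · exact h'
      · exfalso
        have : p.natDegree = m - 1 := by omega
        rw [← this] at hc
        exact hne (leadingCoeff_eq_zero.1 hc)
    exact hne (eq_zero_of_natDegree_lt_card_of_eval_eq_zero' p T hroots (by omega))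
  · have hTc : T.card = m := by
      rw [hT, Finset.card_eraseNone_of_not_mem hnone, hcard]
    exact hne (eq_zero_of_natDegree_lt_card_of_eval_eq_zero' p T hroots (by omega))

theorem varOver_rs [Fintype F] {m : ℕ} (hm : 4 ≤ m) (hq : 4 ≤ Fintype.card F) :
    VarOver m F (Option F) := by
  classical
  obtain ⟨b, hbS, hbspan, hbli⟩ := exists_linearIndependent F (rootless F (m - 1))
  have hdeg : rootless F (m - 1) ⊆ (degreeLT F m : Set F[X]) := by
    rintro p ⟨h1, h2, -⟩
    have hp0 : p ≠ 0 := by rintro rfl; simp at h2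
    change p ∈ degreeLT F m
    rw [mem_degreeLT, ← natDegree_lt_iff_degree_lt hp0]
    omega
  have hspan : Submodule.span F b = degreeLT F m := by
    rw [hbspan]
    apply le_antisymm
    · exact Submodule.span_le.2 hdeg
    · rw [degreeLT_eq_span_X_pow]
      apply Submodule.span_le.2
      intro x hx
      simp only [Finset.coe_image, Set.mem_image, Finset.coe_range, Set.mem_Iio] at hx
      obtain ⟨k, hk, rfl⟩ := hx
      exact span_rootless hq (by omega) k (by omega)
  have hrank : Module.rank F (Submodule.span F b) = Cardinal.mk b := rank_span_set hbli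
  have hrank2 : Module.rank F (degreeLT F m) = m := by
    rw [(degreeLTEquiv F m).rank_eq]; simp
  rw [hspan, hrank2] at hrank
  have : Cardinal.mk (Fin m) = Cardinal.mk b := by rw [Cardinal.mk_fin, hrank]
  obtain ⟨eqv⟩ := Cardinal.eq.1 this
  refine VarOver.linear (P := F[X]) (evp (m - 1)) (fun i => (eqv i : F[X])) ?_ ?_ ?_
  · exact hbli.comp eqv eqv.injective
  · intro c j
    obtain ⟨h1, h2, h3⟩ := hbS (eqv j).2
    rcases c with _ | t
    · exact h2
    · exact h3 t
  · intro e he v hv hz
    apply evp_det (by omega) e he v _ hz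
    rw [← hspan]
    refine Submodule.span_mono ?_ hv
    rintro _ ⟨j, rfl⟩
    exact (eqv j).2

end Pool.Agent.H430R2.PermCubes
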