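import Pool.Agent.H430R2.PermCubes.Linear

set_option autoImplicit false

/-!
# Dimension three over a finite field
-/

namespace Pool.Agent.H430R2.PermCubes

open Function

variable {F : Type} [Field F]

/-- evaluation of `v₀ + v₁ t + v₂ t²` at `t`; `none` is the leading coefficient -/
def evq (c : Option F) : (Fin 3 → F) →ₗ[F] F :=
  match c with
  | some t => LinearMap.proj 0 + t • LinearMap.proj 1 + (t ^ 2) • LinearMap.proj 2
  | none => LinearMap.proj 2

theorem evq_some (t : F) (v : Fin 3 → F) : evq (some t) v = v 0 + t * v 1 + t ^ 2 * v 2 := by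
  simp [evq]

theorem evq_none (v : Fin 3 → F) : evq none v = v 2 := by
  simp [evq]

theorem zero_of_three {a b c : F} (hab : a ≠ b) (hac : a ≠ c) (hbc : b ≠ c) {v : Fin 3 → F}
    (h1 : evq (some a) v = 0) (h2 : evq (some b) v = 0) (h3 : evq (some c) v = 0) : v = 0 := by
  rw [evq_some] at h1 h2 h3
  have e1 : (a - b) * (v 1 + (a + b) * v 2) = 0 := by linear_combination h1 - h2
  have e2 : (a - c) * (v 1 + (a + c) * v 2) = 0 := by linear_combination h1 - h3
  have e1' := (mul_eq_zero.1 e1).resolve_left (sub_ne_zero.2 hab)
  have e2' := (mul_eq_zero.1 e2).resolve_left (sub_ne_zero.2 hac)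
  have e3 : (b - c) * v 2 = 0 := by linear_combination e1' - e2'
  have e3' := (mul_eq_zero.1 e3).resolve_left (sub_ne_zero.2 hbc)
  rw [e3'] at e1' h1
  have e4 : v 1 = 0 := by linear_combination e1'
  rw [e4] at h1
  have e5 : v 0 = 0 := by linear_combination h1
  funext i
  fin_cases i
  · exact e5
  · exact e4
  · exact e3'

theorem zero_of_two {a b : F} (hab : a ≠ b) {v : Fin 3 → F}
    (h1 : evq (some a) v = 0) (h2 : evq (some b) v = 0) (h3 : v 2 = 0) : v = 0 := by
  rw [evq_some, h3] at h1 h2
  have e1 : (a - b) * v 1 = 0 := by linear_combination h1 - h2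
  have e4 := (mul_eq_zero.1 e1).resolve_left (sub_ne_zero.2 hab)
  rw [e4] at h1
  have e5 : v 0 = 0 := by linear_combination h1
  funext i
  fin_cases i
  · exact e5
  · exact e4
  · exact h3

theorem evq_det (e : Fin 3 → Option F) (he : Injective e) (v : Fin 3 → F)
    (h : ∀ i, evq (e i) v = 0) : v = 0 := by
  have h0 := h 0
  have h1 := h 1
  have h2 := h 2
  have n01 : e 0 ≠ e 1 := fun h => absurd (he h) (by decide)
  have n02 : e 0 ≠ e 2 := fun h => absurd (he h) (by decide)
  have n12 : e 1 ≠ e 2 := fun h => absurd (he h) (by decide)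
  rcases ha : e 0 with _ | a <;> rcases hb : e 1 with _ | b <;> rcases hc : e 2 with _ | c <;>
    rw [ha] at h0 n01 n02 <;> rw [hb] at h1 n01 n12 <;> rw [hc] at h2 n02 n12
  · exact absurd rfl n01
  · exact absurd rfl n01
  · exact absurd rfl n02
  · exact zero_of_two (fun h => n12 (by rw [h])) h1 h2 (by rwa [evq_none] at h0)
  · exact absurd rfl n12
  · exact zero_of_two (fun h => n02 (by rw [h])) h0 h2 (by rwa [evq_none] at h1)
  · exact zero_of_two (fun h => n01 (by rw [h])) h0 h1 (by rwa [evq_none] at h2)
  · exact zero_of_three (fun h => n01 (by rw [h])) (fun h => n02 (by rw [h]))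
      (fun h => n12 (by rw [h])) h0 h1 h2

/-- **Odd characteristic**: `q + 1` cubes. -/
theorem varOver_odd [Finite F] (h2 : (2 : F) ≠ 0) : VarOver 3 F (Option F) := by
  obtain ⟨g, hg⟩ : ∃ g : F, ¬ IsSquare g := FiniteField.exists_nonsquare (by
    intro h
    apply h2
    have : CharP F 2 := by
      have := ringChar.charP F
      rw [h] at this
      exact this
    exact CharTwo.two_eq_zero)
  refine VarOver.linear (P := Fin 3 → F) evq
    ![![-g, 0, 1], ![1 - g, -2, 1], ![1 - g, 2, 1]] ?_ ?_ ?_
  · rw [Fintype.linearIndependent_iff]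
    intro x hx
    have e0 := congrFun hx 0
    have e1 := congrFun hx 1
    have e2 := congrFun hx 2
    simp [Fin.sum_univ_three] at e0 e1 e2
    have f1 : x 1 = x 2 := by
      have : 2 * (x 2 - x 1) = 0 := by linear_combination e1
      have := (mul_eq_zero.1 this).resolve_left h2
      linear_combination -this
    have f2 : x 1 + x 2 = 0 := by linear_combination e0 + g * e2
    have f3 : x 1 = 0 := by
      have : 2 * x 1 = 0 := by linear_combination f2 + f1
      exact (mul_eq_zero.1 this).resolve_left h2
    have f4 : x 2 = 0 := by rw [← f1, f3]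
    have f5 : x 0 = 0 := by
      rw [f3, f4] at e2
      linear_combination e2
    intro i
    fin_cases i
    · exact f5
    · exact f3
    · exact f4
  · have key : ∀ t a : F, (t - a) ^ 2 - g ≠ 0 := by
      intro t a h
      exact hg ⟨t - a, by linear_combination -h⟩
    intro c j
    rcases c with _ | t
    · rw [evq_none]
      fin_cases j <;> simp
    · rw [evq_some]
      fin_cases j
      · intro h; apply key t 0; simp at h; linear_combination h
      · intro h; apply key t 1; simp at h; linear_combination h
      · intro h; apply key t (-1); simp at h; linear_combination h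
  · intro e he v _ hv
    exact evq_det e he v hv

/-- evaluation, with the nucleus -/
def evq' (c : Option (Option F)) : (Fin 3 → F) →ₗ[F] F :=
  match c with
  | some c => evq c
  | none => LinearMap.proj 1

theorem evq'_none (v : Fin 3 → F) : evq' none v = v 1 := by
  simp [evq']

theorem nucleus_det (h2 : (2 : F) = 0) {c d : Option F} (hcd : c ≠ d) {v : Fin 3 → F}
    (h1 : evq c v = 0) (h3 : evq d v = 0) (h4 : v 1 = 0) : v = 0 := by
  have key : v 0 = 0 ∧ v 2 = 0 := by
    rcases c with _ | s <;> rcases d with _ | t
    · exact absurd rfl hcd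
    · rw [evq_none] at h1
      rw [evq_some, h1, h4] at h3
      exact ⟨by linear_combination h3, h1⟩
    · rw [evq_none] at h3
      rw [evq_some, h3, h4] at h1
      exact ⟨by linear_combination h1, h3⟩
    · rw [evq_some, h4] at h1 h3
      have e1 : (s - t) ^ 2 * v 2 = 0 := by
        linear_combination h1 - h3 + (t ^ 2 - s * t) * v 2 * h2
      have hst : s ≠ t := fun h => hcd (by rw [h])
      have e2 := (mul_eq_zero.1 e1).resolve_left (pow_ne_zero 2 (sub_ne_zero.2 hst))
      rw [e2] at h1
      exact ⟨by linear_combination h1, e2⟩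
  funext i
  fin_cases i
  · exact key.1
  · exact h4
  · exact key.2

/-- **Characteristic two**: `q + 2` cubes for `q ≥ 4`. -/
theorem varOver_even [Finite F] (h2 : (2 : F) = 0) {b : F} (hb0 : b ≠ 0) (hb1 : b ≠ 1) :
    VarOver 3 F (Option (Option F)) := by
  -- an element outside the image of `t ↦ t² + t`
  obtain ⟨c, hc⟩ : ∃ c : F, ∀ t : F, t ^ 2 + t ≠ c := by
    by_contra hcon
    push Not at hcon
    have hs : Surjective (fun t : F => t ^ 2 + t) := hcon
    have hi := Finite.injective_iff_surjective.2 hs
    have : (0 : F) = 1 := hi (by simp only; linear_combination -h2)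
    exact zero_ne_one this
  have hc' : ∀ t : F, t ^ 2 + t + c ≠ 0 := by
    intro t h
    apply hc t
    linear_combination h - c * h2
  set c' := c + (b ^ 2 + b) with hc'def
  have hc'' : ∀ t : F, t ^ 2 + t + c' ≠ 0 := by
    intro t h
    apply hc' (t + b)
    rw [hc'def] at h
    linear_combination h + t * b * h2
  have hb : ∀ t : F, t ^ 2 + b * t + b ^ 2 * c ≠ 0 := by
    intro t h
    apply hc' (t / b)
    field_simp
    linear_combination h
  have hbb : b ^ 2 + b ≠ 0 := by
    intro h
    have : b * (b - 1) = 0 := by linear_combination h - b * h2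
    rcases mul_eq_zero.1 this with h | h
    · exact hb0 h
    · exact hb1 (by linear_combination h)
  refine VarOver.linear (P := Fin 3 → F) evq' ![![c, 1, 1], ![c', 1, 1], ![b ^ 2 * c, b, 1]]
    ?_ ?_ ?_
  · rw [Fintype.linearIndependent_iff]
    intro x hx
    have e0 := congrFun hx 0
    have e1 := congrFun hx 1
    have e2 := congrFun hx 2
    simp [Fin.sum_univ_three] at e0 e1 e2
    have f2 : x 2 = 0 := by
      have : (b - 1) * x 2 = 0 := by linear_combination e1 - e2
      exact (mul_eq_zero.1 this).resolve_left (sub_ne_zero.2 hb1)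
    rw [f2] at e0 e2
    have f1 : x 1 = 0 := by
      have : (b ^ 2 + b) * x 1 = 0 := by
        rw [hc'def] at e0
        linear_combination e0 - c * e2
      exact (mul_eq_zero.1 this).resolve_left hbb
    rw [f1] at e2
    have f0 : x 0 = 0 := by linear_combination e2
    intro i
    fin_cases i
    · exact f0
    · exact f1
    · exact f2
  · intro d j
    rcases d with _ | d
    · rw [evq'_none]
      fin_cases j <;> simp [hb0]
    rcases d with _ | t
    · change evq none _ ≠ 0
      rw [evq_none]
      fin_cases j <;> simp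
    · change evq (some t) _ ≠ 0
      rw [evq_some]
      fin_cases j
      · intro h; apply hc' t; simp at h; linear_combination h
      · intro h; apply hc'' t; simp at h; linear_combination h
      · intro h; apply hb t; simp at h; linear_combination h
  · intro e he v _ hv
    by_cases hnone : ∃ i, e i = none
    · obtain ⟨i, hi⟩ := hnone
      have hvi := hv i
      rw [hi, evq'_none] at hvi
      -- the two other indices
      have hoth : ∀ j, j ≠ i → ∃ d, e j = some d := by
        intro j hj
        rcases hd : e j with _ | d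
        · exact absurd (he (hd.trans hi.symm)) hj
        · exact ⟨d, rfl⟩
      have h3 : ∀ i : Fin 3, ∃ j k : Fin 3, j ≠ i ∧ k ≠ i ∧ j ≠ k := by decide
      obtain ⟨j, k, hji, hki, hjk⟩ := h3 i
      obtain ⟨d, hd⟩ := hoth j hji
      obtain ⟨d', hd'⟩ := hoth k hki
      have hdd : d ≠ d' := by
        rintro rfl
        exact hjk (he (hd.trans hd'.symm))
      have h1 := hv j
      have h3 := hv k
      rw [hd] at h1
      rw [hd'] at h3
      exact nucleus_det h2 hdd h1 h3 hvi
    · push Not at hnone
      have hsome : ∀ i, ∃ d, e i = some d := by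
        intro i
        rcases hd : e i with _ | d
        · exact absurd hd (hnone i)
        · exact ⟨d, rfl⟩
      choose e' he' using hsome
      apply evq_det e' (fun i j hij => he (by rw [he' i, he' j, hij]))
      intro i
      have := hv i
      rw [he' i] at this
      exact this

/-- a finite field with `q` elements -/
theorem exists_field {q : ℕ} (hq : IsPrimePow q) :
    ∃ (F : Type) (_ : Field F) (_ : Fintype F), Fintype.card F = q := by
  obtain ⟨p, k, hp, hk, rfl⟩ := hq
  have hp' := hp.nat_prime
  have : Fact p.Prime := ⟨hp'⟩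
  have hc : Nat.card (GaloisField p k) = p ^ k := GaloisField.card p k hk.ne'
  have : Finite (GaloisField p k) := Nat.finite_of_card_ne_zero (by
    rw [hc]; exact pow_ne_zero _ hp'.ne_zero)
  have : Fintype (GaloisField p k) := Fintype.ofFinite _
  rw [Nat.card_eq_fintype_card] at hc
  exact ⟨GaloisField p k, inferInstance, inferInstance, hc⟩

theorem two_eq_zero_iff {F : Type} [Field F] [Fintype F] :
    (2 : F) = 0 ↔ Fintype.card F % 2 = 0 := by
  rw [← FiniteField.even_card_iff_char_two]
  constructor
  · intro h2
    have h3 : ringChar F ∣ 2 := ringChar.dvd (by exact_mod_cast h2)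
    rcases (Nat.dvd_prime Nat.prime_two).1 h3 with h | h
    · exact absurd h CharP.ringChar_ne_one
    · exact h
  · intro h
    have := ringChar.Nat.cast_ringChar (R := F)
    rw [h] at this
    exact_mod_cast this

/-- `q + 1` three-dimensional cubes for odd prime powers -/
theorem three_odd {q : ℕ} (hq : IsPrimePow q) (hodd : q % 2 = 1) :
    ∃ C : Fin (q + 1) → (Fin 3 → Fin q) → Fin q, IsVariationalSet 3 q (q + 1) C := by
  obtain ⟨F, hF, hFt, hc⟩ := exists_field hq
  have h2 : (2 : F) ≠ 0 := by
    rw [Ne, two_eq_zero_iff, hc]; omega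
  exact (varOver_odd h2).toFin (Fintype.equivFinOfCardEq hc)
    (Fintype.equivFinOfCardEq (by rw [Fintype.card_option, hc]))

/-- `q + 2` three-dimensional cubes for even prime powers `q ≥ 4` -/
theorem three_even {q : ℕ} (hq : IsPrimePow q) (heven : q % 2 = 0) (h4 : 4 ≤ q) :
    ∃ C : Fin (q + 2) → (Fin 3 → Fin q) → Fin q, IsVariationalSet 3 q (q + 2) C := by
  obtain ⟨F, hF, hFt, hc⟩ := exists_field hq
  have h2 : (2 : F) = 0 := by
    rw [two_eq_zero_iff, hc]; omega
  classical
  obtain ⟨b, hb0, hb1⟩ : ∃ b : F, b ≠ 0 ∧ b ≠ 1 := by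
    by_contra hcon
    push Not at hcon
    have : (Finset.univ : Finset F) ⊆ {0, 1} := by
      intro x _
      by_cases hx : x = 0
      · simp [hx]
      · simp [hcon x hx]
    have := Finset.card_le_card this
    have h5 : ({0, 1} : Finset F).card ≤ 2 := Finset.card_le_two
    rw [Finset.card_univ] at this
    omega
  exact (varOver_even h2 hb0 hb1).toFin (Fintype.equivFinOfCardEq hc)
    (Fintype.equivFinOfCardEq (by rw [Fintype.card_option, Fintype.card_option, hc]))

end Pool.Agent.H430R2.PermCubes
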