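import Pool.Agent.H430R2.PermCubes.Defs

set_option autoImplicit false

/-!
# Order two, and trivial families
-/

namespace Pool.Agent.H430R2.PermCubes

open Function

/-- the sum of the coordinates is a permutation cube -/
theorem exists_cube (m n : ℕ) (hn : 0 < n) :
    ∃ C : (Fin m → Fin n) → Fin n, IsPermutationCube m n C := by
  have : NeZero n := ⟨hn.ne'⟩
  refine ⟨fun x => ∑ j, x j, fun i x => ?_⟩
  have : ∀ t, (∑ j, update x i t j) = t + ∑ j ∈ Finset.univ.erase i, x j := by
    intro t
    rw [← Finset.add_sum_erase _ _ (Finset.mem_univ i), update_self]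
    congr 1
    apply Finset.sum_congr rfl
    intro j hj
    rw [update_of_ne (Finset.ne_of_mem_erase hj)]
  simp only [this]
  exact (Equiv.addRight (∑ j ∈ Finset.univ.erase i, x j)).bijective

/-- fewer than `m` cubes -/
theorem exists_vacuous (m n k : ℕ) (hn : 0 < n) (hk : k < m) :
    ∃ C : Fin k → (Fin m → Fin n) → Fin n, IsVariationalSet m n k C := by
  obtain ⟨C, hC⟩ := exists_cube m n hn
  refine ⟨fun _ => C, fun _ => hC, fun e he => ?_⟩
  have := Fintype.card_le_of_injective e he
  simp only [Fintype.card_fin] at this
  omega

theorem two_agree {m : ℕ} {C D : (Fin m → Fin 2) → Fin 2} (hC : IsPermutationCube m 2 C)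
    (hD : IsPermutationCube m 2 D) (x : Fin m → Fin 2) (i : Fin m) (t : Fin 2) :
    (C (update x i t) = D (update x i t)) ↔ (C x = D x) := by
  by_cases ht : t = x i
  · subst ht; simp
  · have h1 : C (update x i t) ≠ C x := by
      intro h
      apply ht
      have h' : C (update x i t) = C (update x i (x i)) := by simpa using h
      exact (hC i x).1 h'
    have h2 : D (update x i t) ≠ D x := by
      intro h
      apply ht
      have h' : D (update x i t) = D (update x i (x i)) := by simpa using h
      exact (hD i x).1 h'
    revert h1 h2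
    generalize C (update x i t) = a
    generalize C x = b
    generalize D (update x i t) = c
    generalize D x = d
    revert a b c d
    decide

theorem two_agree_all {m : ℕ} {C D : (Fin m → Fin 2) → Fin 2} (hC : IsPermutationCube m 2 C)
    (hD : IsPermutationCube m 2 D) (x y : Fin m → Fin 2) : (C y = D y) ↔ (C x = D x) := by
  have key : ∀ s : Finset (Fin m),
      (C (fun i => if i ∈ s then y i else x i) = D (fun i => if i ∈ s then y i else x i)) ↔
        (C x = D x) := by
    intro s
    induction s using Finset.induction_on with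
    | empty => simp
    | insert a s ha ih =>
      rw [← ih]
      have : (fun i => if i ∈ insert a s then y i else x i) =
          update (fun i => if i ∈ s then y i else x i) a (y a) := by
        funext i
        by_cases hi : i = a
        · subst hi; simp
        · rw [update_of_ne hi]; simp [hi]
      rw [this]
      exact two_agree hC hD _ _ _
  have := key Finset.univ
  simpa using this

/-- For order two there are at most `m - 1` cubes. -/
theorem two_le {m k : ℕ} {C : Fin k → (Fin m → Fin 2) → Fin 2} (h : IsVariationalSet m 2 k C)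
    (hm : 2 ≤ m) : k ≤ m - 1 := by
  by_contra hcon
  push Not at hcon
  have hmk : m ≤ k := by omega
  obtain ⟨h1, h2⟩ := h
  have hb := h2 (Fin.castLE hmk) (Fin.castLE_injective hmk)
  obtain ⟨x, hx⟩ := hb.2 (fun _ => 0)
  obtain ⟨y, hy⟩ := hb.2 (fun i => if i = ⟨0, by omega⟩ then 1 else 0)
  have hx0 := congrFun hx ⟨0, by omega⟩
  have hx1 := congrFun hx ⟨1, by omega⟩
  have hy0 := congrFun hy ⟨0, by omega⟩
  have hy1 := congrFun hy ⟨1, by omega⟩
  simp at hx0 hx1 hy0 hy1
  have := two_agree_all (h1 (Fin.castLE hmk ⟨0, by omega⟩)) (h1 (Fin.castLE hmk ⟨1, by omega⟩)) x y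
  simp [hx0, hx1, hy0, hy1] at this

end Pool.Agent.H430R2.PermCubes
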