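import Pool.Agent.H430R2.PermCubes.Defs

set_option autoImplicit false

/-!
# Upper bounds for variational sets of permutation cubes
-/

namespace Pool.Agent.H430R2.PermCubes

variable {m n k : ℕ} {C : Fin k → (Fin m → Fin n) → Fin n}

/-- the part of the definition of a variational set that does not mention lines -/
def IsArray (m n k : ℕ) (C : Fin k → (Fin m → Fin n) → Fin n) : Prop :=
  ∀ e : Fin m → Fin k, Function.Injective e →
    Function.Bijective (fun (x : Fin m → Fin n) (i : Fin m) => C (e i) x)

/-- two points that agree on `m` of the cubes are equal -/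
theorem IsArray.eq_of_agree (h : IsArray m n k C) {x y : Fin m → Fin n} (S : Finset (Fin k))
    (hS : m ≤ S.card) (hxy : ∀ i ∈ S, C i x = C i y) : x = y := by
  obtain ⟨T, hT, hTc⟩ := Finset.exists_subset_card_eq hS
  have e := (T.equivFinOfCardEq hTc).symm
  refine (h (fun i => (e i).1) (fun i j hij => e.injective (Subtype.ext hij))).1 ?_
  funext i
  exact hxy _ (hT (e i).2)

/-- a point with prescribed values on `m` of the cubes -/
theorem IsArray.exists_point (h : IsArray m n k C) (S : Finset (Fin k))
    (hS : S.card = m) (v : Fin k → Fin n) : ∃ x, ∀ i ∈ S, C i x = v i := by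
  have e := (S.equivFinOfCardEq hS).symm
  obtain ⟨x, hx⟩ := (h (fun i => (e i).1) (fun i j hij => e.injective (Subtype.ext hij))).2
    (fun i => v (e i).1)
  refine ⟨x, fun i hi => ?_⟩
  have := congrFun hx (e.symm ⟨i, hi⟩)
  simpa using this

/-- the number of cubes on which two points agree -/
def agree (C : Fin k → (Fin m → Fin n) → Fin n) (x y : Fin m → Fin n) : Finset (Fin k) :=
  Finset.univ.filter (fun i => C i x = C i y)

theorem IsArray.card_agree (h : IsArray m n k C) {x y : Fin m → Fin n} (hxy : x ≠ y) :
    (agree C x y).card < m := by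
  by_contra hcon
  push Not at hcon
  exact hxy (h.eq_of_agree (agree C x y) hcon (fun i hi => (Finset.mem_filter.1 hi).2))

/-- **The bound for `n ≤ m`**: at most `m + 1` cubes. -/
theorem IsArray.le_add_one (h : IsArray m n k C) (hn : 2 ≤ n) (hnm : n ≤ m) : k ≤ m + 1 := by
  by_contra hcon
  push Not at hcon
  -- use `m + 2` of the cubes
  obtain ⟨U, -, hU⟩ := Finset.exists_subset_card_eq
    (show m + 2 ≤ (Finset.univ : Finset (Fin k)).card by simp; omega)
  have h0 : (0 : ℕ) < n := by omega
  obtain ⟨a, ha⟩ : U.Nonempty := by rw [← Finset.card_pos]; omega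
  obtain ⟨b, hb⟩ : (U.erase a).Nonempty := by
    rw [← Finset.card_pos, Finset.card_erase_of_mem ha]; omega
  have hbU := Finset.mem_of_mem_erase hb
  have hab : b ≠ a := (Finset.mem_erase.1 hb).1
  set W := (U.erase a).erase b with hW
  have hWc : W.card = m := by
    rw [hW, Finset.card_erase_of_mem hb, Finset.card_erase_of_mem ha]; omega
  let x₀ : Fin m → Fin n := fun _ => ⟨0, h0⟩
  have : Nontrivial (Fin n) := Fin.nontrivial_iff_two_le.2 hn
  obtain ⟨s, hs⟩ := exists_ne (C a x₀)
  -- for `c ∈ W`: the point with `C a = s` and all others of `U` except `b, c` as at `x₀`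
  have hex : ∀ c ∈ W, ∃ x, C a x = s ∧ ∀ i ∈ W, i ≠ c → C i x = C i x₀ := by
    intro c hc
    have hcard : (insert a (W.erase c)).card = m := by
      rw [Finset.card_insert_of_notMem, Finset.card_erase_of_mem hc]
      · have : 0 < W.card := Finset.card_pos.2 ⟨c, hc⟩
        omega
      · simp [hW]
    obtain ⟨x, hx⟩ := h.exists_point _ hcard (fun i => if i = a then s else C i x₀)
    refine ⟨x, by simpa using hx a (by simp), fun i hi hic => ?_⟩
    have := hx i (by simp [hi, hic])
    have hia : i ≠ a := by
      rintro rfl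
      simp [hW] at hi
    simpa [hia] using this
  choose! p hp1 hp2 using hex
  have hne : ∀ c ∈ W, C b (p c) ≠ C b x₀ := by
    intro c hc hcon'
    have : p c = x₀ := by
      refine h.eq_of_agree (insert b (W.erase c)) ?_ ?_
      · rw [Finset.card_insert_of_notMem, Finset.card_erase_of_mem hc]
        · have : 0 < W.card := Finset.card_pos.2 ⟨c, hc⟩
          omega
        · simp [hW]
      · intro i hi
        rcases Finset.mem_insert.1 hi with rfl | hi
        · exact hcon'
        · exact hp2 c hc i (Finset.mem_of_mem_erase hi) (Finset.ne_of_mem_erase hi)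
    apply hs
    rw [← hp1 c hc, this]
  have hinj : Set.InjOn (fun c => C b (p c)) (W : Set (Fin k)) := by
    intro c hc d hd hcd
    simp only at hcd
    by_contra hcd'
    have hpp : p c = p d := by
      refine h.eq_of_agree (insert a (insert b ((W.erase c).erase d))) ?_ ?_
      · rw [Finset.card_insert_of_notMem, Finset.card_insert_of_notMem,
          Finset.card_erase_of_mem, Finset.card_erase_of_mem hc]
        · have : 1 < W.card := Finset.one_lt_card.2 ⟨c, hc, d, hd, hcd'⟩
          omega
        · exact Finset.mem_erase.2 ⟨fun h' => hcd' h'.symm, hd⟩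
        · simp [hW]
        · simp [hW, hab.symm]
      · intro i hi
        rcases Finset.mem_insert.1 hi with rfl | hi
        · rw [hp1 c hc, hp1 d hd]
        rcases Finset.mem_insert.1 hi with rfl | hi
        · exact hcd
        · have h1 := Finset.mem_of_mem_erase hi
          rw [hp2 c hc i (Finset.mem_of_mem_erase h1) (Finset.ne_of_mem_erase h1),
            hp2 d hd i (Finset.mem_of_mem_erase h1) (Finset.ne_of_mem_erase hi)]
    -- then `p c` agrees with `x₀` on all of `W`
    have : p c = x₀ := by
      refine h.eq_of_agree W hWc.ge ?_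
      intro i hi
      by_cases hic : i = c
      · rw [hpp]
        exact hp2 d hd i hi (by rw [hic]; exact hcd')
      · exact hp2 c hc i hi hic
    exact hne c hc (by rw [this])
  have hcard : W.card ≤ (Finset.univ.erase (C b x₀)).card := by
    refine Finset.card_le_card_of_injOn (fun c => C b (p c)) ?_ hinj
    intro c hc
    simp only [Finset.coe_erase, Finset.coe_univ]
    exact ⟨trivial, hne c hc⟩
  rw [Finset.card_erase_of_mem (Finset.mem_univ _), Finset.card_univ, Fintype.card_fin, hWc] at hcard
  omega

/-- **The general bound**: at most `n + m - 1` cubes. -/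
theorem IsArray.le_general (h : IsArray m n k C) (hm : 2 ≤ m) (hn : 2 ≤ n) : k ≤ n + m - 1 := by
  by_contra hcon
  push Not at hcon
  have h0 : (0 : ℕ) < n := by omega
  let x₀ : Fin m → Fin n := fun _ => ⟨0, h0⟩
  -- fix the first `m - 2` cubes
  obtain ⟨U, -, hU⟩ := Finset.exists_subset_card_eq
    (show m - 2 ≤ (Finset.univ : Finset (Fin k)).card by simp; omega)
  have hUc : (Uᶜ : Finset (Fin k)).card = k - (m - 2) := by
    rw [Finset.card_compl, Fintype.card_fin, hU]
  -- for `a ∉ U`, `b ∉ U`, `b ≠ a`, the points that agree with `x₀` on `U` and at `a`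
  -- the pairs `(a, s)`, `s ≠ C b₀ x₀`
  have : Nontrivial (Fin n) := Fin.nontrivial_iff_two_le.2 hn
  -- points agreeing with x₀ on U: parametrised by the values at two cubes b₀ b₁ outside U
  obtain ⟨b₀, hb₀⟩ : (Uᶜ : Finset (Fin k)).Nonempty := by rw [← Finset.card_pos, hUc]; omega
  -- fix a symbol `s ≠ C b₀ x₀`; for every other `a ∉ U` there is a unique point `q a` agreeing
  -- with `x₀` on `U` and at `a` with `C b₀ = s`
  obtain ⟨s, hs⟩ := exists_ne (C b₀ x₀)
  set W := (Uᶜ : Finset (Fin k)).erase b₀ with hW
  have hWc : W.card = k - (m - 2) - 1 := by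
    rw [hW, Finset.card_erase_of_mem hb₀, hUc]
  have hb₀U : b₀ ∉ U := by simpa using hb₀
  have hex : ∀ a ∈ W, ∃ x, C b₀ x = s ∧ C a x = C a x₀ ∧ ∀ i ∈ U, C i x = C i x₀ := by
    intro a ha
    have haU : a ∉ U := by
      have := Finset.mem_of_mem_erase ha
      simpa using this
    have hab : a ≠ b₀ := Finset.ne_of_mem_erase ha
    have hcard : (insert b₀ (insert a U)).card = m := by
      rw [Finset.card_insert_of_notMem, Finset.card_insert_of_notMem haU]
      · omega
      · simp [hab.symm, hb₀U]
    obtain ⟨x, hx⟩ := h.exists_point _ hcard (fun i => if i = b₀ then s else C i x₀)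
    refine ⟨x, by simpa using hx b₀ (by simp), by simpa [hab] using hx a (by simp), ?_⟩
    intro i hi
    have hib : i ≠ b₀ := by rintro rfl; exact hb₀U hi
    simpa [hib] using hx i (by simp [hi])
  choose! q hq1 hq2 hq3 using hex
  -- fix one more cube `a₀ ∈ W`; the values `C a₀ (q a)` for `a ≠ a₀` are distinct and `≠ C a₀ x₀`
  obtain ⟨a₀, ha₀⟩ : W.Nonempty := by rw [← Finset.card_pos, hWc]; omega
  have haW : ∀ a ∈ W, a ∉ U ∧ a ≠ b₀ := by
    intro a ha
    refine ⟨?_, Finset.ne_of_mem_erase ha⟩
    have := Finset.mem_of_mem_erase ha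
    simpa using this
  have hqne : ∀ a ∈ W, q a ≠ x₀ := by
    intro a ha h'
    exact hs (by rw [← hq1 a ha, h'])
  have hne : ∀ a ∈ W.erase a₀, C a₀ (q a) ≠ C a₀ x₀ := by
    intro a ha h'
    have haW' := Finset.mem_of_mem_erase ha
    have haa : a ≠ a₀ := Finset.ne_of_mem_erase ha
    apply hqne a haW'
    refine h.eq_of_agree (insert a₀ (insert a U)) ?_ ?_
    · rw [Finset.card_insert_of_notMem, Finset.card_insert_of_notMem (haW a haW').1]
      · omega
      · simp [haa.symm, (haW a₀ ha₀).1]
    · intro i hi
      rcases Finset.mem_insert.1 hi with rfl | hi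
      · exact h'
      rcases Finset.mem_insert.1 hi with rfl | hi
      · exact hq2 _ haW'
      · exact hq3 a haW' i hi
  have hinj : Set.InjOn (fun a => C a₀ (q a)) (W.erase a₀ : Set (Fin k)) := by
    intro a ha b hb hab
    simp only at hab
    by_contra hne'
    have ha := Finset.mem_coe.1 ha
    have hb := Finset.mem_coe.1 hb
    have haW' : a ∈ W := Finset.mem_of_mem_erase ha
    have hbW' : b ∈ W := Finset.mem_of_mem_erase hb
    have haa : a ≠ a₀ := Finset.ne_of_mem_erase ha
    have hba : b ≠ a₀ := Finset.ne_of_mem_erase hb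
    -- `q a = q b` as they agree on `U`, at `b₀` and at `a₀`
    have hqq : q a = q b := by
      refine h.eq_of_agree (insert a₀ (insert b₀ U)) ?_ ?_
      · rw [Finset.card_insert_of_notMem, Finset.card_insert_of_notMem hb₀U]
        · omega
        · simp [(haW a₀ ha₀).1, (haW a₀ ha₀).2]
      · intro i hi
        rcases Finset.mem_insert.1 hi with rfl | hi
        · exact hab
        rcases Finset.mem_insert.1 hi with rfl | hi
        · rw [hq1 a haW', hq1 b hbW']
        · rw [hq3 a haW' i hi, hq3 b hbW' i hi]
    apply hqne a haW'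
    refine h.eq_of_agree (insert a (insert b U)) ?_ ?_
    · rw [Finset.card_insert_of_notMem, Finset.card_insert_of_notMem (haW b hbW').1]
      · omega
      · simp [hne', (haW a haW').1]
    · intro i hi
      rcases Finset.mem_insert.1 hi with rfl | hi
      · exact hq2 _ haW'
      rcases Finset.mem_insert.1 hi with rfl | hi
      · rw [hqq]; exact hq2 _ hbW'
      · exact hq3 a haW' i hi
  have hcard : (W.erase a₀).card ≤ (Finset.univ.erase (C a₀ x₀)).card := by
    refine Finset.card_le_card_of_injOn (fun a => C a₀ (q a)) ?_ ?_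
    · intro a ha
      simp only [Finset.coe_erase, Finset.coe_univ]
      exact ⟨trivial, hne a ha⟩
    · intro a ha b hb hab
      exact hinj (by simpa using ha) (by simpa using hb) hab
  rw [Finset.card_erase_of_mem (Finset.mem_univ _), Finset.card_univ, Fintype.card_fin,
    Finset.card_erase_of_mem ha₀, hWc] at hcard
  omega


/-- In an array with `n + m - 1` cubes (so that the bound is attained): if `x ≠ x₀` agrees with
`x₀` on `m - 2` of the cubes then it agrees with `x₀` on one more among any `n + 1` others. -/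
theorem IsArray.agree_more (h : IsArray m n k C) (hm : 2 ≤ m) (U W : Finset (Fin k))
    (hU : U.card = m - 2) (hUW : Disjoint U W) (hW : W.card = n + 1) {x x₀ : Fin m → Fin n}
    (hne : x ≠ x₀) (hx : ∀ i ∈ U, C i x = C i x₀) : ∃ b ∈ W, C b x = C b x₀ := by
  classical
  by_contra hcon
  push Not at hcon
  obtain ⟨b₀, hb₀⟩ : W.Nonempty := by rw [← Finset.card_pos]; omega
  have hWU : ∀ c ∈ W, c ∉ U := fun c hc hcU => Finset.disjoint_left.1 hUW hcU hc
  have : Nonempty (Fin m → Fin n) := ⟨x⟩
  set s := C b₀ x with hs
  have hs0 : s ≠ C b₀ x₀ := hcon b₀ hb₀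
  have hex : ∀ c ∈ W.erase b₀, ∃ y, C b₀ y = s ∧ C c y = C c x₀ ∧ ∀ i ∈ U, C i y = C i x₀ := by
    intro c hc
    have hcW := Finset.mem_of_mem_erase hc
    have hcb : c ≠ b₀ := Finset.ne_of_mem_erase hc
    have hcard : (insert b₀ (insert c U)).card = m := by
      rw [Finset.card_insert_of_notMem, Finset.card_insert_of_notMem (hWU c hcW)]
      · omega
      · simp [hcb.symm, hWU b₀ hb₀]
    obtain ⟨y, hy⟩ := h.exists_point _ hcard (fun i => if i = b₀ then s else C i x₀)
    refine ⟨y, by simpa using hy b₀ (by simp), by simpa [hcb] using hy c (by simp), ?_⟩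
    intro i hi
    have hib : i ≠ b₀ := by rintro rfl; exact hWU _ hb₀ hi
    simpa [hib] using hy i (by simp [hi])
  choose! q hq1 hq2 hq3 using hex
  have hqne : ∀ c ∈ W.erase b₀, q c ≠ x₀ := by
    intro c hc h'
    exact hs0 (by rw [← hq1 c hc, h'])
  have hqx : ∀ c ∈ W.erase b₀, q c ≠ x := by
    intro c hc h'
    exact hcon c (Finset.mem_of_mem_erase hc) (by rw [← h']; exact hq2 c hc)
  -- a further cube
  obtain ⟨a₀, ha₀⟩ : (W.erase b₀).Nonempty := by
    rw [← Finset.card_pos, Finset.card_erase_of_mem hb₀]
    have : 0 < n := by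
      rcases Nat.eq_zero_or_pos n with rfl | h'
      · exact absurd (C b₀ x).2 (by omega)
      · exact h'
    omega
  -- the values at `a₀` of `x` and of the `q c` are distinct: `n + 1` values
  have hdet : ∀ y z : Fin m → Fin n, C b₀ y = s → C b₀ z = s → (∀ i ∈ U, C i y = C i x₀) →
      (∀ i ∈ U, C i z = C i x₀) → C a₀ y = C a₀ z → y = z := by
    intro y z h1 h2 h3 h4 h5
    refine h.eq_of_agree (insert a₀ (insert b₀ U)) ?_ ?_
    · rw [Finset.card_insert_of_notMem, Finset.card_insert_of_notMem (hWU b₀ hb₀)]
      · omega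
      · simp [hWU a₀ (Finset.mem_of_mem_erase ha₀), Finset.ne_of_mem_erase ha₀]
    · intro i hi
      rcases Finset.mem_insert.1 hi with rfl | hi
      · exact h5
      rcases Finset.mem_insert.1 hi with rfl | hi
      · rw [h1, h2]
      · rw [h3 i hi, h4 i hi]
  have hqinj : ∀ c ∈ W.erase b₀, ∀ d ∈ W.erase b₀, q c = q d → c = d := by
    intro c hc d hd hcd
    by_contra hne'
    apply hqne c hc
    refine h.eq_of_agree (insert c (insert d U)) ?_ ?_
    · rw [Finset.card_insert_of_notMem,
        Finset.card_insert_of_notMem (hWU d (Finset.mem_of_mem_erase hd))]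
      · omega
      · simp [hne', hWU c (Finset.mem_of_mem_erase hc)]
    · intro i hi
      rcases Finset.mem_insert.1 hi with rfl | hi
      · exact hq2 _ hc
      rcases Finset.mem_insert.1 hi with rfl | hi
      · rw [hcd]; exact hq2 _ hd
      · exact hq3 c hc i hi
  have hcard : (W.erase b₀).card ≤ (Finset.univ.erase (C a₀ x)).card := by
    refine Finset.card_le_card_of_injOn (fun c => C a₀ (q c)) ?_ ?_
    · intro c hc
      have hc := Finset.mem_coe.1 hc
      simp only [Finset.coe_erase, Finset.coe_univ]
      refine ⟨trivial, fun h' => hqx c hc ?_⟩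
      exact hdet _ _ (hq1 c hc) hs.symm (hq3 c hc) hx h'
    · intro c hc d hd hcd
      have hc := Finset.mem_coe.1 hc
      have hd := Finset.mem_coe.1 hd
      exact hqinj c hc d hd (hdet _ _ (hq1 c hc) (hq1 d hd) (hq3 c hc) (hq3 d hd) hcd)
  rw [Finset.card_erase_of_mem (Finset.mem_univ _), Finset.card_univ, Fintype.card_fin,
    Finset.card_erase_of_mem hb₀, hW] at hcard
  have : 0 < n := by
    rcases Nat.eq_zero_or_pos n with rfl | h'
    · exact absurd (C b₀ x).2 (by omega)
    · exact h'
  omega

/-- **The bound for odd order**: at most `n + m - 2` cubes if `n` is odd and `m ≥ 3`. -/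
theorem IsArray.le_odd (h : IsArray m n k C) (hm : 3 ≤ m) (hn : 2 ≤ n) (hodd : n % 2 = 1) :
    k ≤ n + m - 2 := by
  classical
  by_contra hcon
  push Not at hcon
  have h0 : (0 : ℕ) < n := by omega
  let x₀ : Fin m → Fin n := fun _ => ⟨0, h0⟩
  have : Nontrivial (Fin n) := Fin.nontrivial_iff_two_le.2 hn
  obtain ⟨U, -, hU⟩ := Finset.exists_subset_card_eq
    (show m - 3 ≤ (Finset.univ : Finset (Fin k)).card by simp; omega)
  have hUc : (Uᶜ : Finset (Fin k)).card = k - (m - 3) := by
    rw [Finset.card_compl, Fintype.card_fin, hU]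
  obtain ⟨W, hWU, hW⟩ := Finset.exists_subset_card_eq
    (show n + 2 ≤ (Uᶜ : Finset (Fin k)).card by rw [hUc]; omega)
  have hWnU : ∀ c ∈ W, c ∉ U := fun c hc => by simpa using hWU hc
  obtain ⟨a, ha⟩ : W.Nonempty := by rw [← Finset.card_pos]; omega
  obtain ⟨b, hb⟩ : (W.erase a).Nonempty := by
    rw [← Finset.card_pos, Finset.card_erase_of_mem ha]; omega
  have hbW := Finset.mem_of_mem_erase hb
  have hba : b ≠ a := Finset.ne_of_mem_erase hb
  obtain ⟨s, hs⟩ := exists_ne (C a x₀)
  obtain ⟨t, ht⟩ := exists_ne (C b x₀)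
  set V := (W.erase a).erase b with hV
  have hVc : V.card = n := by
    rw [hV, Finset.card_erase_of_mem hb, Finset.card_erase_of_mem ha]; omega
  have hVW : ∀ c ∈ V, c ∈ W ∧ c ≠ a ∧ c ≠ b := by
    intro c hc
    have h1 := Finset.mem_of_mem_erase hc
    exact ⟨Finset.mem_of_mem_erase h1, Finset.ne_of_mem_erase h1, Finset.ne_of_mem_erase hc⟩
  have hex : ∀ c ∈ V, ∃ y, C a y = s ∧ C b y = t ∧ C c y = C c x₀ ∧
      ∀ i ∈ U, C i y = C i x₀ := by
    intro c hc
    obtain ⟨hcW, hca, hcb⟩ := hVW c hc
    have hcard : (insert a (insert b (insert c U))).card = m := by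
      rw [Finset.card_insert_of_notMem, Finset.card_insert_of_notMem,
        Finset.card_insert_of_notMem (hWnU c hcW)]
      · omega
      · simp [hcb.symm, hWnU b hbW]
      · simp [hba.symm, hca.symm, hWnU a ha]
    obtain ⟨y, hy⟩ := h.exists_point _ hcard
      (fun i => if i = a then s else if i = b then t else C i x₀)
    refine ⟨y, by simpa using hy a (by simp), by simpa [hba] using hy b (by simp),
      by simpa [hca, hcb] using hy c (by simp), ?_⟩
    intro i hi
    have hia : i ≠ a := by rintro rfl; exact hWnU _ ha hi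
    have hib : i ≠ b := by rintro rfl; exact hWnU _ hbW hi
    simpa [hia, hib] using hy i (by simp [hi])
  choose! r hr1 hr2 hr3 hr4 using hex
  have hfib : ∀ y ∈ V.image r, (V.filter (fun c => r c = y)).card = 2 := by
    intro y hy
    obtain ⟨c₀, hc₀, rfl⟩ := Finset.mem_image.1 hy
    obtain ⟨hc₀W, hc₀a, hc₀b⟩ := hVW c₀ hc₀
    have hne : r c₀ ≠ x₀ := by
      intro h'
      exact hs (by rw [← hr1 c₀ hc₀, h'])
    have hfeq : V.filter (fun c => r c = r c₀) = V.filter (fun c => C c (r c₀) = C c x₀) := by
      apply Finset.filter_congr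
      intro c hc
      obtain ⟨hcW, hca, hcb⟩ := hVW c hc
      constructor
      · intro h'; rw [← h']; exact hr3 c hc
      · intro h'
        refine h.eq_of_agree (insert a (insert b (insert c U))) ?_ ?_
        · rw [Finset.card_insert_of_notMem, Finset.card_insert_of_notMem,
            Finset.card_insert_of_notMem (hWnU c hcW)]
          · omega
          · simp [hcb.symm, hWnU b hbW]
          · simp [hba.symm, hca.symm, hWnU a ha]
        · intro i hi
          rcases Finset.mem_insert.1 hi with rfl | hi
          · rw [hr1 c hc, hr1 c₀ hc₀]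
          rcases Finset.mem_insert.1 hi with rfl | hi
          · rw [hr2 c hc, hr2 c₀ hc₀]
          rcases Finset.mem_insert.1 hi with rfl | hi
          · rw [hr3 _ hc, h']
          · rw [hr4 c hc i hi, hr4 c₀ hc₀ i hi]
    rw [hfeq]
    apply le_antisymm
    · -- at most two
      have h1 : (V.filter (fun c => C c (r c₀) = C c x₀)) ∪ U ⊆ agree C (r c₀) x₀ := by
        intro i hi
        rcases Finset.mem_union.1 hi with hi | hi
        · exact Finset.mem_filter.2 ⟨Finset.mem_univ _, (Finset.mem_filter.1 hi).2⟩
        · exact Finset.mem_filter.2 ⟨Finset.mem_univ _, hr4 c₀ hc₀ i hi⟩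
      have h2 := (Finset.card_le_card h1).trans_lt (h.card_agree hne)
      rw [Finset.card_union_of_disjoint] at h2
      · omega
      · rw [Finset.disjoint_left]
        intro c hc
        exact hWnU c (hVW c (Finset.mem_filter.1 hc).1).1
    · -- at least two
      obtain ⟨d, hd, hd'⟩ := h.agree_more (by omega) (insert c₀ U) (W.erase c₀)
        (by rw [Finset.card_insert_of_notMem (hWnU c₀ hc₀W)]; omega)
        (by
          rw [Finset.disjoint_left]
          intro i hi hi'
          rcases Finset.mem_insert.1 hi with rfl | hi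
          · exact absurd rfl (Finset.ne_of_mem_erase hi')
          · exact hWnU i (Finset.mem_of_mem_erase hi') hi)
        (by rw [Finset.card_erase_of_mem hc₀W]; omega) hne
        (by
          intro i hi
          rcases Finset.mem_insert.1 hi with rfl | hi
          · exact hr3 _ hc₀
          · exact hr4 c₀ hc₀ i hi)
      have hdV : d ∈ V := by
        rw [hV, Finset.mem_erase, Finset.mem_erase]
        refine ⟨?_, ?_, Finset.mem_of_mem_erase hd⟩
        · rintro rfl
          exact ht (by rw [← hr2 c₀ hc₀, hd'])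
        · rintro rfl
          exact hs (by rw [← hr1 c₀ hc₀, hd'])
      have hsub : ({c₀, d} : Finset (Fin k)) ⊆ V.filter (fun c => C c (r c₀) = C c x₀) := by
        intro i hi
        rcases Finset.mem_insert.1 hi with rfl | hi
        · exact Finset.mem_filter.2 ⟨hc₀, hr3 _ hc₀⟩
        · rw [Finset.mem_singleton.1 hi]
          exact Finset.mem_filter.2 ⟨hdV, hd'⟩
      calc 2 = ({c₀, d} : Finset (Fin k)).card :=
            (Finset.card_pair (Finset.ne_of_mem_erase hd).symm).symm
        _ ≤ _ := Finset.card_le_card hsub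
  have hsum := Finset.card_eq_sum_card_image r V
  rw [Finset.sum_congr rfl hfib, Finset.sum_const, smul_eq_mul, hVc] at hsum
  omega

end Pool.Agent.H430R2.PermCubes
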